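import Pool.Agent.Work.MP_09e03f_lc.Contin

/-!
# The curves approaching the base point
-/

namespace Pool.Agent.Work.MP_09e03f_lc

open MvPolynomial Filter Topology

variable {m : ℕ}

section curve
variable (m) (M : ℕ) (j : Fin m) (ζ : Fin m → ℝ)

/-- the real number `x j ^ 2` on the curve -/
noncomputable def cX (t : ℝ) : ℝ :=
  t ^ M - A0 m (t - aj m j) - t ^ 2 * ∑ l ∈ Finset.univ.erase j, ζ l ^ 2

/-- the real number `tt / t` on the curve -/
noncomputable def cT (t : ℝ) : ℝ :=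
  (t - aj m j) * t ^ (M - 1) + cX m M j ζ t +
    t * (∑ l ∈ Finset.univ.erase j, ζ l ^ 2 * (t - aj m j + aj m l)) -
    (∑ i : Fin (m + 1), (t - aj m j + mu i)⁻¹ * (mu i - aj m j)⁻¹) -
    t ^ (2 * M - 1) - t * cX m M j ζ t -
    t * ∑ l ∈ Finset.univ.erase j, ((t - aj m j + aj m l) * ζ l) ^ 2

theorem mu_ne_eventually : ∀ᶠ t : ℝ in 𝓝 0, ∀ i : Fin (m + 1), t - aj m j + mu i ≠ 0 := by
  rw [Filter.eventually_all]
  intro i
  have h1 : Tendsto (fun t : ℝ => t - aj m j + mu i) (𝓝 0) (𝓝 (mu i - aj m j)) := by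
    have : Tendsto (fun t : ℝ => t - aj m j + mu i) (𝓝 0) (𝓝 (0 - aj m j + mu i)) :=
      (tendsto_id.sub_const _).add_const _
    convert this using 2; ring
  exact h1.eventually_ne (mu_sub_aj_ne m j i)

theorem tendsto_inv (i : Fin (m + 1)) :
    Tendsto (fun t : ℝ => (t - aj m j + mu i)⁻¹) (𝓝 0) (𝓝 (mu i - aj m j)⁻¹) := by
  have h1 : Tendsto (fun t : ℝ => t - aj m j + mu i) (𝓝 0) (𝓝 (mu i - aj m j)) := by
    have : Tendsto (fun t : ℝ => t - aj m j + mu i) (𝓝 0) (𝓝 (0 - aj m j + mu i)) :=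
      (tendsto_id.sub_const _).add_const _
    convert this using 2; ring
  exact h1.inv₀ (mu_sub_aj_ne m j i)

theorem tendsto_A0 : Tendsto (fun t : ℝ => A0 m (t - aj m j)) (𝓝 0) (𝓝 (gj m j)) := by
  unfold A0 gj
  exact tendsto_finsetSum _ fun i _ => (tendsto_inv m j i).pow 2

theorem tendsto_cX (hM : 2 ≤ M) : Tendsto (cX m M j ζ) (𝓝 0) (𝓝 (- gj m j)) := by
  have h1 : Tendsto (fun t : ℝ => t ^ M) (𝓝 0) (𝓝 0) := by
    have := (tendsto_id (α := ℝ) (x := 𝓝 0)).pow M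
    rwa [zero_pow (by omega)] at this
  have h2 : Tendsto (fun t : ℝ => t ^ 2 * ∑ l ∈ Finset.univ.erase j, ζ l ^ 2) (𝓝 0) (𝓝 0) := by
    have := ((tendsto_id (α := ℝ) (x := 𝓝 0)).pow 2).mul_const (∑ l ∈ Finset.univ.erase j, ζ l ^ 2)
    rwa [zero_pow (by norm_num), zero_mul] at this
  have h3 := (h1.sub (tendsto_A0 m j)).sub h2
  rw [show 0 - gj m j - 0 = -gj m j by ring] at h3
  exact h3

theorem tendsto_cT (hM : 2 ≤ M) : Tendsto (cT m M j ζ) (𝓝 0) (𝓝 (- (2 * gj m j))) := by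
  have hid := tendsto_id (α := ℝ) (x := 𝓝 0)
  have h1 : Tendsto (fun t : ℝ => (t - aj m j) * t ^ (M - 1)) (𝓝 0) (𝓝 0) := by
    have := (hid.sub_const (aj m j)).mul (hid.pow (M - 1))
    rwa [zero_pow (by omega), mul_zero] at this
  have h2 := tendsto_cX m M j ζ hM
  have h3 : Tendsto (fun t : ℝ => t * (∑ l ∈ Finset.univ.erase j, ζ l ^ 2 *
      (t - aj m j + aj m l))) (𝓝 0) (𝓝 0) := by
    have := hid.mul (tendsto_finsetSum (Finset.univ.erase j) fun l _ =>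
      ((hid.sub_const (aj m j)).add_const (aj m l)).const_mul (ζ l ^ 2))
    rwa [zero_mul] at this
  have h4 : Tendsto (fun t : ℝ => ∑ i : Fin (m + 1), (t - aj m j + mu i)⁻¹ *
      (mu i - aj m j)⁻¹) (𝓝 0) (𝓝 (gj m j)) := by
    unfold gj
    refine tendsto_finsetSum _ fun i _ => ?_
    have := (tendsto_inv m j i).mul_const ((mu i - aj m j)⁻¹)
    rwa [← sq] at this
  have h5 : Tendsto (fun t : ℝ => t ^ (2 * M - 1)) (𝓝 0) (𝓝 0) := by
    have := hid.pow (2 * M - 1)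
    rwa [zero_pow (by omega)] at this
  have h6 : Tendsto (fun t : ℝ => t * cX m M j ζ t) (𝓝 0) (𝓝 0) := by
    have := hid.mul h2
    rwa [zero_mul] at this
  have h7 : Tendsto (fun t : ℝ => t * ∑ l ∈ Finset.univ.erase j,
      ((t - aj m j + aj m l) * ζ l) ^ 2) (𝓝 0) (𝓝 0) := by
    have := hid.mul (tendsto_finsetSum (Finset.univ.erase j) fun l _ =>
      (((hid.sub_const (aj m j)).add_const (aj m l)).mul_const (ζ l)).pow 2)
    rwa [zero_mul] at this
  have h8 := (((((h1.add h2).add h3).sub h4).sub h5).sub h6).sub h7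
  rw [show 0 + -gj m j + 0 - gj m j - 0 - 0 - 0 = -(2 * gj m j) by ring] at h8
  exact h8

/-- the point `x` on the curve -/
noncomputable def cx (t : ℝ) : Fin m → ℂ :=
  fun l => if l = j then Complex.I * ((√(-cX m M j ζ t) : ℝ) : ℂ) else ((t * ζ l : ℝ) : ℂ)

theorem cx_self_sq (t : ℝ) (h : cX m M j ζ t ≤ 0) : cx m M j ζ t j ^ 2 = ((cX m M j ζ t : ℝ) : ℂ) := by
  rw [cx, if_pos rfl, mul_pow, Complex.I_sq, ← Complex.ofReal_pow, Real.sq_sqrt (by linarith)]
  push_cast; ring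

theorem cx_other (t : ℝ) {l : Fin m} (h : l ≠ j) : cx m M j ζ t l = ((t * ζ l : ℝ) : ℂ) := by
  rw [cx, if_neg h]

theorem vv_curve (t : ℝ) (h : cX m M j ζ t ≤ 0) :
    vv (((t - aj m j : ℝ)) : ℂ) (cx m M j ζ t) = ((t ^ M : ℝ) : ℂ) := by
  classical
  rw [vv, A0_ofReal, ← Finset.add_sum_erase _ _ (Finset.mem_univ j), cx_self_sq m M j ζ t h]
  have h1 : ∑ l ∈ Finset.univ.erase j, cx m M j ζ t l ^ 2 =
      ((∑ l ∈ Finset.univ.erase j, (t * ζ l) ^ 2 : ℝ) : ℂ) := by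
    rw [Complex.ofReal_sum]
    refine Finset.sum_congr rfl fun l hl => ?_
    rw [cx_other m M j ζ t (Finset.ne_of_mem_erase hl)]
    push_cast; ring
  rw [h1, ← Complex.ofReal_add, ← Complex.ofReal_add]
  congr 1
  simp_rw [mul_pow]
  rw [← Finset.mul_sum, cX]
  ring

theorem C0_curve (t : ℝ) (h : ∀ i : Fin (m + 1), t - aj m j + mu i ≠ 0) :
    C0 m (t - aj m j) =
      - (t * ∑ i : Fin (m + 1), (t - aj m j + mu i)⁻¹ * (mu i - aj m j)⁻¹) := by
  have h0 := (aj_spec m j).2.2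
  have h1 : C0 m (t - aj m j) = ∑ i : Fin (m + 1), ((t - aj m j + mu i)⁻¹ - (mu i - aj m j)⁻¹) := by
    rw [Finset.sum_sub_distrib, h0, sub_zero]; rfl
  rw [h1, Finset.mul_sum, ← Finset.sum_neg_distrib]
  refine Finset.sum_congr rfl fun i _ => ?_
  have h2 := h i
  have h3 := mu_sub_aj_ne m j i
  field_simp
  ring

theorem tt_curve (hM : 2 ≤ M) (t : ℝ) (h : cX m M j ζ t ≤ 0)
    (hne : ∀ i : Fin (m + 1), t - aj m j + mu i ≠ 0) :
    tt (((t - aj m j : ℝ)) : ℂ) (cx m M j ζ t) = ((t * cT m M j ζ t : ℝ) : ℂ) := by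
  classical
  have h1 : ∑ l, cx m M j ζ t l ^ 2 * (((t - aj m j : ℝ) : ℂ) + algebraMap ℝ ℂ (aj m l)) =
      ((cX m M j ζ t * t + ∑ l ∈ Finset.univ.erase j, (t * ζ l) ^ 2 * (t - aj m j + aj m l) : ℝ) :
        ℂ) := by
    rw [← Finset.add_sum_erase _ _ (Finset.mem_univ j), cx_self_sq m M j ζ t h, Complex.ofReal_add,
      Complex.ofReal_sum]
    congr 1
    · push_cast
      rw [Complex.coe_algebraMap]
      ring
    · refine Finset.sum_congr rfl fun l hl => ?_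
      rw [cx_other m M j ζ t (Finset.ne_of_mem_erase hl), Complex.coe_algebraMap]
      push_cast; ring
  have h2 : ∑ l, ww (((t - aj m j : ℝ)) : ℂ) (cx m M j ζ t) l ^ 2 =
      ((t ^ 2 * cX m M j ζ t + ∑ l ∈ Finset.univ.erase j, ((t - aj m j + aj m l) * (t * ζ l)) ^ 2 :
        ℝ) : ℂ) := by
    rw [← Finset.add_sum_erase _ _ (Finset.mem_univ j), Complex.ofReal_add, Complex.ofReal_sum]
    congr 1
    · rw [ww, mul_pow, cx_self_sq m M j ζ t h, Complex.coe_algebraMap]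
      push_cast; ring
    · refine Finset.sum_congr rfl fun l hl => ?_
      rw [ww, cx_other m M j ζ t (Finset.ne_of_mem_erase hl), Complex.coe_algebraMap]
      push_cast; ring
  rw [tt, vv_curve m M j ζ t h, h1, h2, C0_ofReal, C0_curve m j t hne]
  rw [← Complex.ofReal_mul, ← Complex.ofReal_add, ← Complex.ofReal_add, ← Complex.ofReal_pow,
    ← Complex.ofReal_sub, ← Complex.ofReal_sub]
  congr 1
  obtain ⟨M', rfl⟩ : ∃ M', M = M' + 2 := ⟨M - 2, by omega⟩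
  have e1 : M' + 2 - 1 = M' + 1 := by omega
  have e2 : 2 * (M' + 2) - 1 = 2 * M' + 3 := by omega
  rw [cT, e1, e2]
  have h3 : ∑ l ∈ Finset.univ.erase j, (t * ζ l) ^ 2 * (t - aj m j + aj m l) =
      t ^ 2 * ∑ l ∈ Finset.univ.erase j, ζ l ^ 2 * (t - aj m j + aj m l) := by
    rw [Finset.mul_sum]
    exact Finset.sum_congr rfl fun l _ => by ring
  have h4 : ∑ l ∈ Finset.univ.erase j, ((t - aj m j + aj m l) * (t * ζ l)) ^ 2 =
      t ^ 2 * ∑ l ∈ Finset.univ.erase j, ((t - aj m j + aj m l) * ζ l) ^ 2 := by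
    rw [Finset.mul_sum]
    exact Finset.sum_congr rfl fun l _ => by ring
  rw [h3, h4]
  ring

end curve

/-- the special values -/
noncomputable def theta (m : ℕ) (j : Fin m) : ℂ :=
  (Complex.I * ((√(gj m j) : ℝ) : ℂ)) / ((-(2 * gj m j) : ℝ) : ℂ)

theorem theta_ne (m : ℕ) (j : Fin m) : theta m j ≠ 0 := by
  unfold theta
  have h1 := gj_pos m j
  have h2 : √(gj m j) ≠ 0 := (Real.sqrt_pos.2 h1).ne'
  have h3 : -(2 * gj m j) ≠ 0 := by linarith [h1]
  exact div_ne_zero (mul_ne_zero Complex.I_ne_zero (by exact_mod_cast h2)) (by exact_mod_cast h3)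

/-- **Key lower bound.** -/
theorem key_bound (Q : MvPolynomial (Yi m) ℝ) (hQ : Q ≠ 0)
    (h : ∀ (r : ℂ) (x : Fin m → ℂ) (u : ℂ),
      (∀ i : Fin (m + 1), r + algebraMap ℝ ℂ (mu i) ≠ 0) → u ^ 2 = tt r x →
      aeval (pt (ww r x) u (vv r x)) Q * aeval (pt (ww r x) (-u) (vv r x)) Q = 0) :
    2 ^ m ≤ Q.support.card := by
  refine sparse_bound Q hQ (theta m) (theta_ne m) ?_
  intro M hM j η
  have hg := gj_pos m j
  let ζ : Fin m → ℝ := fun l => -(2 * gj m j) * η l / (aj m l - aj m j)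
  let U₀ : ℂ := Complex.I * ((√(2 * gj m j) : ℝ) : ℂ)
  have hU₀sq : U₀ ^ 2 = ((-(2 * gj m j) : ℝ) : ℂ) := by
    show (Complex.I * ((√(2 * gj m j) : ℝ) : ℂ)) ^ 2 = _
    rw [mul_pow, Complex.I_sq, ← Complex.ofReal_pow, Real.sq_sqrt (by linarith)]
    push_cast; ring
  have hU₀ : U₀ ≠ 0 := by
    intro h0
    rw [h0] at hU₀sq
    have : (-(2 * gj m j) : ℝ) = 0 := by
      have h1 : (((-(2 * gj m j) : ℝ)) : ℂ) = 0 := by rw [← hU₀sq]; ring
      exact_mod_cast h1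
    linarith
  have hsq : Tendsto (fun σ : ℝ => σ ^ 2) (𝓝[>] 0) (𝓝 0) := by
    have := ((tendsto_id (α := ℝ) (x := 𝓝 0)).pow 2)
    rw [zero_pow (by norm_num)] at this
    exact this.mono_left nhdsWithin_le_nhds
  have hT : Tendsto (fun σ : ℝ => cT m M j ζ (σ ^ 2)) (𝓝[>] 0) (𝓝 (-(2 * gj m j))) :=
    (tendsto_cT m M j ζ hM).comp hsq
  have hX : Tendsto (fun σ : ℝ => cX m M j ζ (σ ^ 2)) (𝓝[>] 0) (𝓝 (-(gj m j))) :=
    (tendsto_cX m M j ζ hM).comp hsq
  refine ⟨fun σ => Complex.I * ((√(-cT m M j ζ (σ ^ 2)) : ℝ) : ℂ),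
    fun σ l => if l = j then Complex.I * ((√(-cX m M j ζ (σ ^ 2)) : ℝ) : ℂ)
      else ((((σ ^ 2 - aj m j + aj m l) * ζ l : ℝ)) : ℂ), U₀, hU₀, ?_, ?_, ?_, ?_⟩
  · refine Tendsto.const_mul _ ?_
    refine (Complex.continuous_ofReal.tendsto _).comp ?_
    refine (Real.continuous_sqrt.tendsto _).comp ?_
    have := hT.neg
    rwa [neg_neg] at this
  · intro l hl
    simp only [if_neg hl]
    have h1 : Tendsto (fun σ : ℝ => (σ ^ 2 - aj m j + aj m l) * ζ l) (𝓝[>] 0)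
        (𝓝 ((0 - aj m j + aj m l) * ζ l)) := ((hsq.sub_const _).add_const _).mul_const _
    have h2 := (Complex.continuous_ofReal.tendsto _).comp h1
    have h3 : U₀ ^ 2 * (η l : ℂ) = (((0 - aj m j + aj m l) * ζ l : ℝ) : ℂ) := by
      rw [hU₀sq, ← Complex.ofReal_mul]
      congr 1
      have h4 := aj_ne m hl
      show _ = (0 - aj m j + aj m l) * (-(2 * gj m j) * η l / (aj m l - aj m j))
      field_simp
      ring
    rw [h3]
    exact h2
  · simp only [if_true]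
    have h3 : U₀ ^ 2 * theta m j = Complex.I * ((√(gj m j) : ℝ) : ℂ) := by
      rw [hU₀sq, theta]
      have h4 : ((-(2 * gj m j) : ℝ) : ℂ) ≠ 0 := by
        have : -(2 * gj m j) ≠ 0 := by linarith [hg]
        exact_mod_cast this
      field_simp
    rw [h3]
    refine Tendsto.const_mul _ ?_
    refine (Complex.continuous_ofReal.tendsto _).comp ?_
    refine (Real.continuous_sqrt.tendsto _).comp ?_
    have := hX.neg
    rwa [neg_neg] at this
  · have hne := hsq.eventually (mu_ne_eventually m j)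
    have hXneg : ∀ᶠ σ : ℝ in 𝓝[>] 0, cX m M j ζ (σ ^ 2) < 0 :=
      hX.eventually_lt_const (by linarith)
    have hTneg : ∀ᶠ σ : ℝ in 𝓝[>] 0, cT m M j ζ (σ ^ 2) < 0 :=
      hT.eventually_lt_const (by linarith)
    filter_upwards [hne, hXneg, hTneg] with σ h1 h2 h3
    set t := σ ^ 2 with ht
    have hcond : ∀ i : Fin (m + 1), (((t - aj m j : ℝ)) : ℂ) + algebraMap ℝ ℂ (mu i) ≠ 0 := by
      intro i
      rw [Complex.coe_algebraMap, ← Complex.ofReal_add]
      exact_mod_cast h1 i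
    have hu : ((σ : ℂ) * (Complex.I * ((√(-cT m M j ζ t) : ℝ) : ℂ))) ^ 2 =
        tt (((t - aj m j : ℝ)) : ℂ) (cx m M j ζ t) := by
      rw [tt_curve m M j ζ hM t h2.le h1, mul_pow, mul_pow, Complex.I_sq, ← Complex.ofReal_pow,
        ← Complex.ofReal_pow, Real.sq_sqrt (by linarith), ht]
      push_cast; ring
    have hv : vv (((t - aj m j : ℝ)) : ℂ) (cx m M j ζ t) = (σ : ℂ) ^ (2 * M) := by
      rw [vv_curve m M j ζ t h2.le, ht, ← pow_mul]
      push_cast; rfl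
    have hw : ww (((t - aj m j : ℝ)) : ℂ) (cx m M j ζ t) = fun l => (σ : ℂ) ^ 2 *
        (if l = j then Complex.I * ((√(-cX m M j ζ t) : ℝ) : ℂ)
          else ((((t - aj m j + aj m l) * ζ l : ℝ)) : ℂ)) := by
      funext l
      rw [ww, Complex.coe_algebraMap]
      by_cases hl : l = j
      · subst hl
        rw [cx, if_pos rfl, if_pos rfl, ht]
        push_cast; ring
      · rw [cx_other m M j ζ t hl, if_neg hl, ht]
        push_cast; ring
    have hfin := h _ _ _ hcond hu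
    rw [hv, hw] at hfin
    rw [mul_neg]
    exact hfin

end Pool.Agent.Work.MP_09e03f_lc
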