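import Pool.Agent.Work.MP_09e03f_lc.Defs
import Pool.Agent.Work.MP_09e03f_lc.Curve

/-!
# The construction
-/

namespace Pool.Agent.Work.MP_09e03f_lc

open MvPolynomial Filter Topology

variable {n : ℕ}

/-- Index type of the quantified variables. -/
abbrev Xi (n : ℕ) : Type := Fin n ⊕ Fin (n + 1)

/-- variables -/
noncomputable abbrev xl (j : Fin n) : MvPolynomial (Xi n ⊕ Yi n) ℝ := X (Sum.inl (Sum.inl j))

/-- variables -/
noncomputable abbrev xr (i : Fin (n + 1)) : MvPolynomial (Xi n ⊕ Yi n) ℝ := X (Sum.inl (Sum.inr i))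

/-- variables -/
noncomputable abbrev yl (j : Fin n) : MvPolynomial (Xi n ⊕ Yi n) ℝ := X (Sum.inr (Sum.inl j))

/-- variables -/
noncomputable abbrev yr (i : Fin 2) : MvPolynomial (Xi n ⊕ Yi n) ℝ := X (Sum.inr (Sum.inr i))

/-- first polynomial -/
noncomputable def P1 (n : ℕ) : MvPolynomial (Xi n ⊕ Yi n) ℝ :=
  yr 1 - ∑ j : Fin n, xl j ^ 2 - ∑ i : Fin (n + 1), xr i ^ 2

/-- second polynomial -/
noncomputable def P2 (n : ℕ) : MvPolynomial (Xi n ⊕ Yi n) ℝ :=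
  2 * ∑ j : Fin n, yl j * xl j + 2 * ∑ i : Fin (n + 1), xr i -
    ∑ j : Fin n, C (aj n j) * xl j ^ 2 - ∑ i : Fin (n + 1), C (mu i) * xr i ^ 2 -
    (yr 0 ^ 2 + yr 1 ^ 2 + ∑ j : Fin n, yl j ^ 2)

/-- the input -/
noncomputable def PP (n ℓ : ℕ) : Fin ℓ → MvPolynomial (Xi n ⊕ Yi n) ℝ :=
  fun i => if (i : ℕ) = 0 then P1 n else P2 n

theorem eval_P1 (x : Xi n → ℝ) (y : Yi n → ℝ) : eval (Sum.elim x y) (P1 n) =
    y (.inr 1) - ∑ j, x (.inl j) ^ 2 - ∑ i, x (.inr i) ^ 2 := by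
  simp [P1]

theorem eval_P2 (x : Xi n → ℝ) (y : Yi n → ℝ) : eval (Sum.elim x y) (P2 n) =
    2 * ∑ j, y (.inl j) * x (.inl j) + 2 * ∑ i, x (.inr i) - ∑ j, aj n j * x (.inl j) ^ 2 -
    ∑ i, mu i * x (.inr i) ^ 2 - (y (.inr 0) ^ 2 + y (.inr 1) ^ 2 + ∑ j, y (.inl j) ^ 2) := by
  simp [P2]

theorem mem_basicSet_PP {ℓ : ℕ} (hℓ : 2 ≤ ℓ) (z : (Xi n → ℝ) × (Yi n → ℝ)) :
    z ∈ basicSet (PP n ℓ) ↔ 0 ≤ eval (Sum.elim z.1 z.2) (P1 n) ∧
      0 ≤ eval (Sum.elim z.1 z.2) (P2 n) := by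
  constructor
  · intro h
    exact ⟨h ⟨0, by omega⟩, h ⟨1, by omega⟩⟩
  · rintro ⟨h0, h1⟩ i
    rw [PP]
    split_ifs
    · exact h0
    · exact h1

theorem degree_P1 : (P1 n).totalDegree ≤ 2 := by
  unfold P1
  refine (totalDegree_sub _ _).trans (max_le ((totalDegree_sub _ _).trans (max_le ?_ ?_)) ?_)
  · rw [totalDegree_X]; norm_num
  · refine totalDegree_finsetSum_le fun j _ => ?_
    exact (totalDegree_pow _ _).trans (by rw [totalDegree_X])
  · refine totalDegree_finsetSum_le fun j _ => ?_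
    exact (totalDegree_pow _ _).trans (by rw [totalDegree_X])

theorem degree_P2 : (P2 n).totalDegree ≤ 2 := by
  unfold P2
  have hX2 : ∀ i : Xi n ⊕ Yi n, (X i ^ 2 : MvPolynomial (Xi n ⊕ Yi n) ℝ).totalDegree ≤ 2 :=
    fun i => (totalDegree_pow _ _).trans (by rw [totalDegree_X])
  have h2 : (2 : MvPolynomial (Xi n ⊕ Yi n) ℝ).totalDegree ≤ 0 := by
    have : (2 : MvPolynomial (Xi n ⊕ Yi n) ℝ) = C 2 :=
      (map_ofNat (C : ℝ →+* MvPolynomial (Xi n ⊕ Yi n) ℝ) 2).symm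
    rw [this, totalDegree_C]
  refine (totalDegree_sub _ _).trans (max_le ((totalDegree_sub _ _).trans
    (max_le ((totalDegree_sub _ _).trans (max_le ((totalDegree_add _ _).trans
      (max_le ?_ ?_)) ?_)) ?_)) ?_)
  · refine (totalDegree_mul _ _).trans ?_
    have : (∑ j : Fin n, yl j * xl j).totalDegree ≤ 2 := by
      refine totalDegree_finsetSum_le fun j _ => ?_
      refine (totalDegree_mul _ _).trans ?_
      rw [totalDegree_X, totalDegree_X]
    exact (Nat.add_le_add h2 this).trans (by norm_num)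
  · refine (totalDegree_mul _ _).trans ?_
    have : (∑ i : Fin (n + 1), (xr i : MvPolynomial (Xi n ⊕ Yi n) ℝ)).totalDegree ≤ 1 := by
      refine totalDegree_finsetSum_le fun j _ => ?_
      rw [totalDegree_X]
    exact (Nat.add_le_add h2 this).trans (by norm_num)
  · refine totalDegree_finsetSum_le fun j _ => ?_
    refine (totalDegree_mul _ _).trans ?_
    rw [totalDegree_C, zero_add]
    exact hX2 (.inl (.inl j))
  · refine totalDegree_finsetSum_le fun j _ => ?_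
    refine (totalDegree_mul _ _).trans ?_
    rw [totalDegree_C, zero_add]
    exact hX2 (.inl (.inr j))
  · refine (totalDegree_add _ _).trans (max_le ((totalDegree_add _ _).trans (max_le (hX2 _) (hX2 _))) ?_)
    exact totalDegree_finsetSum_le fun j _ => hX2 _

theorem isClosed_basicSet {ℓ : ℕ} {κ ι : Type} (P : Fin ℓ → MvPolynomial (κ ⊕ ι) ℝ) :
    IsClosed (basicSet P) := by
  have : basicSet P = ⋂ i, {z : (κ → ℝ) × (ι → ℝ) | 0 ≤ eval (Sum.elim z.1 z.2) (P i)} := by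
    ext z; simp [basicSet]
  rw [this]
  refine isClosed_iInter fun i => ?_
  refine isClosed_le continuous_const ?_
  have h1 : Continuous (fun z : (κ → ℝ) × (ι → ℝ) => (Sum.elim z.1 z.2 : κ ⊕ ι → ℝ)) := by
    refine continuous_pi fun i => ?_
    rcases i with i | i
    · exact (continuous_apply i).comp continuous_fst
    · exact (continuous_apply i).comp continuous_snd
  exact (MvPolynomial.continuous_eval (P i)).comp h1

/-- explicit bound for the points of `S` -/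
theorem bound_of_mem {x : Xi n → ℝ} {y : Yi n → ℝ}
    (h1 : 0 ≤ eval (Sum.elim x y) (P1 n)) (h2 : 0 ≤ eval (Sum.elim x y) (P2 n)) :
    (∀ i, |x i| ≤ n + 3) ∧ (∀ i, |y i| ≤ n + 3) := by
  rw [eval_P1] at h1
  rw [eval_P2] at h2
  set u := y (.inr 0) with hu
  set v := y (.inr 1) with hv
  set A := ∑ j, x (.inl j) ^ 2 with hA
  set B := ∑ i, x (.inr i) ^ 2 with hB
  set Wt := ∑ j, y (.inl j) ^ 2 with hW
  have hA0 : 0 ≤ A := Finset.sum_nonneg fun _ _ => sq_nonneg _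
  have hB0 : 0 ≤ B := Finset.sum_nonneg fun _ _ => sq_nonneg _
  have hW0 : 0 ≤ Wt := Finset.sum_nonneg fun _ _ => sq_nonneg _
  have e1 : 2 * ∑ j, y (.inl j) * x (.inl j) ≤ Wt / 2 + 2 * A := by
    rw [hW, hA, Finset.mul_sum, Finset.mul_sum, Finset.sum_div, ← Finset.sum_add_distrib]
    refine Finset.sum_le_sum fun j _ => ?_
    nlinarith [sq_nonneg (y (.inl j) - 2 * x (.inl j))]
  have e2 : 0 ≤ ∑ j, aj n j * x (.inl j) ^ 2 :=
    Finset.sum_nonneg fun j _ => mul_nonneg (aj_pos n j).le (sq_nonneg _)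
  have e3 : 2 * ∑ i, x (.inr i) - ∑ i, mu i * x (.inr i) ^ 2 ≤ n + 1 := by
    rw [Finset.mul_sum, ← Finset.sum_sub_distrib]
    calc ∑ i : Fin (n + 1), (2 * x (.inr i) - mu i * x (.inr i) ^ 2)
        ≤ ∑ i : Fin (n + 1), (1 : ℝ) := by
          refine Finset.sum_le_sum fun i _ => ?_
          have : 1 ≤ mu i := by unfold mu; have : (0 : ℝ) ≤ (i : ℕ) := Nat.cast_nonneg _; linarith
          nlinarith [sq_nonneg (x (.inr i) - 1), mul_nonneg (sub_nonneg.2 this) (sq_nonneg (x (.inr i)))]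
      _ = n + 1 := by simp
  have hn : (0 : ℝ) ≤ n := Nat.cast_nonneg n
  have hmain : u ^ 2 + (v - 1) ^ 2 + Wt / 2 ≤ n + 2 := by nlinarith
  have hv1 : (v - 1) ^ 2 ≤ (n + 2) ^ 2 := by nlinarith [sq_nonneg u]
  have hv2 : |v - 1| ≤ n + 2 := abs_le_of_sq_le_sq hv1 (by linarith)
  have hv3 := abs_le.1 hv2
  have hv4 : v ≤ n + 3 := by linarith [hv3.2]
  have key : ∀ z : ℝ, z ^ 2 ≤ (n + 3) ^ 2 → |z| ≤ n + 3 := fun z hz =>
    abs_le_of_sq_le_sq hz (by linarith)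
  constructor
  · intro i
    apply key
    have hle : x i ^ 2 ≤ A + B := by
      rcases i with j | i
      · have := Finset.single_le_sum (f := fun j => x (.inl j) ^ 2) (fun _ _ => sq_nonneg _)
          (Finset.mem_univ j)
        linarith
      · have := Finset.single_le_sum (f := fun j => x (.inr j) ^ 2) (fun _ _ => sq_nonneg _)
          (Finset.mem_univ i)
        linarith
    nlinarith
  · intro i
    apply key
    rcases i with j | i
    · have := Finset.single_le_sum (f := fun j => y (.inl j) ^ 2) (fun _ _ => sq_nonneg _)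
        (Finset.mem_univ j)
      nlinarith [sq_nonneg u, sq_nonneg (v - 1)]
    · fin_cases i
      · show u ^ 2 ≤ _
        nlinarith [sq_nonneg (v - 1)]
      · show v ^ 2 ≤ _
        have h5 : 0 ≤ v := by linarith
        nlinarith

theorem isCompact_basicSet {ℓ : ℕ} (hℓ : 2 ≤ ℓ) : IsCompact (basicSet (PP n ℓ)) := by
  refine Metric.isCompact_of_isClosed_isBounded (isClosed_basicSet _) ?_
  rw [isBounded_iff_forall_norm_le]
  refine ⟨n + 3, fun z hz => ?_⟩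
  obtain ⟨h1, h2⟩ := (mem_basicSet_PP hℓ z).1 hz
  obtain ⟨h3, h4⟩ := bound_of_mem h1 h2
  have h0 : (0 : ℝ) ≤ n + 3 := by positivity
  rw [Prod.norm_def]
  refine max_le ?_ ?_
  · exact (pi_norm_le_iff_of_nonneg h0).2 fun i => by rw [Real.norm_eq_abs]; exact h3 i
  · exact (pi_norm_le_iff_of_nonneg h0).2 fun i => by rw [Real.norm_eq_abs]; exact h4 i

/-- the key identity -/
theorem key_identity (r : ℝ) (hr : 0 < r) (x : Fin n → ℝ) (u : ℝ) (z : Xi n → ℝ) :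
    r * eval (Sum.elim z (pt (ww r x) u (vv r x))) (P1 n) +
      eval (Sum.elim z (pt (ww r x) u (vv r x))) (P2 n) =
    tt r x - u ^ 2 - ∑ j, (r + aj n j) * (z (.inl j) - x j) ^ 2 -
      ∑ i, (r + mu i) * (z (.inr i) - (r + mu i)⁻¹) ^ 2 := by
  rw [eval_P1, eval_P2]
  have hpt0 : pt (ww r x) u (vv r x) (.inr 0) = u := rfl
  have hpt1 : pt (ww r x) u (vv r x) (.inr 1) = vv r x := rfl
  have hptl : ∀ j, pt (ww r x) u (vv r x) (.inl j) = (r + aj n j) * x j := fun j => rfl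
  rw [hpt0, hpt1]
  simp_rw [hptl]
  have e1 : ∑ j, (r + aj n j) * (z (.inl j) - x j) ^ 2 = r * ∑ j, z (.inl j) ^ 2 +
      ∑ j, aj n j * z (.inl j) ^ 2 - 2 * ∑ j, (r + aj n j) * x j * z (.inl j) +
      ∑ j, x j ^ 2 * (r + aj n j) := by
    rw [Finset.mul_sum, Finset.mul_sum, ← Finset.sum_add_distrib, ← Finset.sum_sub_distrib,
      ← Finset.sum_add_distrib]
    exact Finset.sum_congr rfl fun j _ => by ring
  have e2 : ∑ i : Fin (n + 1), (r + mu i) * (z (.inr i) - (r + mu i)⁻¹) ^ 2 =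
      r * ∑ i, z (.inr i) ^ 2 + ∑ i : Fin (n + 1), mu i * z (.inr i) ^ 2 - 2 * ∑ i, z (.inr i) +
      C0 n r := by
    rw [Finset.mul_sum, Finset.mul_sum, C0, ← Finset.sum_add_distrib, ← Finset.sum_sub_distrib,
      ← Finset.sum_add_distrib]
    refine Finset.sum_congr rfl fun i _ => ?_
    have h : r + mu i ≠ 0 := (add_pos hr (mu_pos i)).ne'
    show _ = _ + (r + mu i)⁻¹
    field_simp
    ring
  rw [e1, e2, tt]
  have e3 : ∀ j, ww r x j = (r + aj n j) * x j := fun j => rfl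
  simp_rw [e3]
  have e4 : ∀ a : ℝ, algebraMap ℝ ℝ a = a := fun a => rfl
  simp_rw [e4]
  ring

theorem mem_proj_of {ℓ : ℕ} (hℓ : 2 ≤ ℓ) (r : ℝ) (hr : 0 < r) (x : Fin n → ℝ) (ht : 0 ≤ tt r x) :
    pt (ww r x) (√(tt r x)) (vv r x) ∈ proj (PP n ℓ) := by
  let z : Xi n → ℝ := Sum.elim x (fun i => (r + mu i)⁻¹)
  refine ⟨z, (mem_basicSet_PP hℓ _).2 ?_⟩
  have h1 : eval (Sum.elim z (pt (ww r x) (√(tt r x)) (vv r x))) (P1 n) = 0 := by
    rw [eval_P1]
    show vv r x - ∑ j, x j ^ 2 - ∑ i : Fin (n + 1), ((r + mu i)⁻¹) ^ 2 = 0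
    rw [vv, A0]
    show _ + ∑ i : Fin (n + 1), ((r + mu i)⁻¹) ^ 2 - _ - _ = _
    ring
  have h2 := key_identity r hr x (√(tt r x)) z
  rw [h1, Real.sq_sqrt ht] at h2
  have h3 : ∑ j, (r + aj n j) * (z (.inl j) - x j) ^ 2 = 0 :=
    Finset.sum_eq_zero fun j _ => by show _ * (x j - x j) ^ 2 = 0; ring
  have h4 : ∑ i, (r + mu i) * (z (.inr i) - (r + mu i)⁻¹) ^ 2 = 0 :=
    Finset.sum_eq_zero fun i _ => by show _ * ((r + mu i)⁻¹ - (r + mu i)⁻¹) ^ 2 = 0; ring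
  rw [h3, h4] at h2
  exact ⟨h1.ge, by linarith⟩

theorem not_mem_proj_of {ℓ : ℕ} (hℓ : 2 ≤ ℓ) (r : ℝ) (hr : 0 < r) (x : Fin n → ℝ) (u : ℝ)
    (hu : tt r x < u ^ 2) : pt (ww r x) u (vv r x) ∉ proj (PP n ℓ) := by
  rintro ⟨z, hz⟩
  obtain ⟨h1, h2⟩ := (mem_basicSet_PP hℓ _).1 hz
  have h3 := key_identity r hr x u z
  have h4 : 0 ≤ ∑ j, (r + aj n j) * (z (.inl j) - x j) ^ 2 :=
    Finset.sum_nonneg fun j _ => mul_nonneg (add_pos hr (aj_pos n j)).le (sq_nonneg _)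
  have h5 : 0 ≤ ∑ i, (r + mu i) * (z (.inr i) - (r + mu i)⁻¹) ^ 2 :=
    Finset.sum_nonneg fun i _ => mul_nonneg (add_pos hr (mu_pos i)).le (sq_nonneg _)
  have h6 := mul_nonneg hr.le h1
  simp only at h2 h6
  linarith

end Pool.Agent.Work.MP_09e03f_lc
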