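import Mathlib

/-!
# The parameters of the construction
-/

namespace Pool.Agent.Work.MP_09e03f_lc

/-- the poles `μ i = i + 1` -/
def mu {m : ℕ} (i : Fin (m + 1)) : ℝ := (i : ℕ) + 1

theorem mu_pos {m : ℕ} (i : Fin (m + 1)) : 0 < mu i := by unfold mu; positivity

/-- In each gap between consecutive poles there is a zero of `a ↦ ∑ 1 / (μ i - a)`. -/
theorem exists_zero (m : ℕ) (j : Fin m) :
    ∃ a : ℝ, (j : ℕ) + 1 < a ∧ a < (j : ℕ) + 2 ∧ ∑ i : Fin (m + 1), (mu i - a)⁻¹ = 0 := by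
  classical
  set ε : ℝ := (4 * (m + 1))⁻¹ with hε
  have hm : (0 : ℝ) < 4 * (m + 1) := by positivity
  have hε0 : 0 < ε := inv_pos.2 hm
  have hε1 : ε ≤ 1 / 4 := by
    rw [hε, inv_eq_one_div]
    apply one_div_le_one_div_of_le (by norm_num)
    have : (0 : ℝ) ≤ m := Nat.cast_nonneg m
    linarith
  have hεinv : ε⁻¹ = 4 * (m + 1) := by rw [hε, inv_inv]
  let F : ℝ → ℝ := fun a => ∑ i : Fin (m + 1), (mu i - a)⁻¹
  set l : ℝ := (j : ℕ) + 1 + ε with hl
  set r : ℝ := (j : ℕ) + 2 - ε with hr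
  have hlr : l ≤ r := by rw [hl, hr]; linarith
  -- distance to the other poles
  have hcase : ∀ i : Fin (m + 1), (i : ℕ) + 1 ≤ (j : ℕ) ∨ (i : ℕ) = j ∨ (i : ℕ) = j + 1 ∨
      (j : ℕ) + 2 ≤ i := by intro i; omega
  have hneg : F l < 0 := by
    have hmem : (Fin.castSucc j) ∈ (Finset.univ : Finset (Fin (m + 1))) := Finset.mem_univ _
    show ∑ i : Fin (m + 1), (mu i - l)⁻¹ < 0
    rw [← Finset.add_sum_erase _ _ hmem]
    have h1 : (mu (Fin.castSucc j) - l)⁻¹ = - (4 * (m + 1)) := by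
      rw [mu, Fin.val_castSucc, hl, ← hεinv]
      rw [show ((j : ℕ) + 1 - ((j : ℕ) + 1 + ε) : ℝ) = -ε by ring, inv_neg]
    have h2 : ∑ i ∈ Finset.univ.erase (Fin.castSucc j), (mu i - l)⁻¹ ≤
        ∑ i ∈ Finset.univ.erase (Fin.castSucc j), (2 : ℝ) := by
      refine Finset.sum_le_sum fun i hi => ?_
      have hne : i ≠ Fin.castSucc j := Finset.ne_of_mem_erase hi
      rcases hcase i with h | h | h | h
      · have h' : ((i : ℕ) : ℝ) + 1 ≤ (j : ℕ) := by exact_mod_cast h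
        have : mu i - l < 0 := by rw [mu, hl]; linarith
        have := inv_lt_zero.2 this
        linarith
      · exfalso; apply hne; ext; simpa using h
      · have h' : ((i : ℕ) : ℝ) = (j : ℕ) + 1 := by exact_mod_cast h
        have h3 : (1 : ℝ) / 2 ≤ mu i - l := by rw [mu, hl, h']; linarith
        calc (mu i - l)⁻¹ ≤ (1 / 2)⁻¹ := inv_anti₀ (by norm_num) h3
          _ = 2 := by norm_num
      · have h' : ((j : ℕ) : ℝ) + 2 ≤ (i : ℕ) := by exact_mod_cast h
        have h3 : (1 : ℝ) / 2 ≤ mu i - l := by rw [mu, hl]; linarith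
        calc (mu i - l)⁻¹ ≤ (1 / 2)⁻¹ := inv_anti₀ (by norm_num) h3
          _ = 2 := by norm_num
    rw [Finset.sum_const, Finset.card_erase_of_mem hmem, Finset.card_univ, Fintype.card_fin,
      Nat.add_sub_cancel, nsmul_eq_mul] at h2
    rw [h1]
    have : (0 : ℝ) ≤ m := Nat.cast_nonneg m
    linarith
  have hpos : 0 < F r := by
    have hmem : (Fin.succ j) ∈ (Finset.univ : Finset (Fin (m + 1))) := Finset.mem_univ _
    show 0 < ∑ i : Fin (m + 1), (mu i - r)⁻¹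
    rw [← Finset.add_sum_erase _ _ hmem]
    have h1 : (mu (Fin.succ j) - r)⁻¹ = 4 * (m + 1) := by
      rw [mu, Fin.val_succ, hr, ← hεinv]
      congr 1
      push_cast
      ring
    have h2 : ∑ i ∈ Finset.univ.erase (Fin.succ j), (-2 : ℝ) ≤
        ∑ i ∈ Finset.univ.erase (Fin.succ j), (mu i - r)⁻¹ := by
      refine Finset.sum_le_sum fun i hi => ?_
      have hne : i ≠ Fin.succ j := Finset.ne_of_mem_erase hi
      rcases hcase i with h | h | h | h
      · have h' : ((i : ℕ) : ℝ) + 1 ≤ (j : ℕ) := by exact_mod_cast h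
        have h3 : (1 : ℝ) / 2 ≤ -(mu i - r) := by rw [mu, hr]; linarith
        have h4 : (-(mu i - r))⁻¹ ≤ (1 / 2)⁻¹ := inv_anti₀ (by norm_num) h3
        rw [inv_neg] at h4
        linarith [show ((1 : ℝ) / 2)⁻¹ = 2 by norm_num]
      · have h' : ((i : ℕ) : ℝ) = (j : ℕ) := by exact_mod_cast h
        have h3 : (1 : ℝ) / 2 ≤ -(mu i - r) := by rw [mu, hr, h']; linarith
        have h4 : (-(mu i - r))⁻¹ ≤ (1 / 2)⁻¹ := inv_anti₀ (by norm_num) h3
        rw [inv_neg] at h4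
        linarith [show ((1 : ℝ) / 2)⁻¹ = 2 by norm_num]
      · exfalso; apply hne; ext; simpa using h
      · have h' : ((j : ℕ) : ℝ) + 2 ≤ (i : ℕ) := by exact_mod_cast h
        have : 0 < mu i - r := by rw [mu, hr]; linarith
        have := inv_pos.2 this
        linarith
    rw [Finset.sum_const, Finset.card_erase_of_mem hmem, Finset.card_univ, Fintype.card_fin,
      Nat.add_sub_cancel, nsmul_eq_mul] at h2
    rw [h1]
    have : (0 : ℝ) ≤ m := Nat.cast_nonneg m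
    linarith
  have hnz : ∀ a ∈ Set.Icc l r, ∀ i : Fin (m + 1), mu i - a ≠ 0 := by
    intro a ha i h
    have h1 := ha.1
    have h2 := ha.2
    rw [hl] at h1
    rw [hr] at h2
    rw [mu] at h
    rcases hcase i with h' | h' | h' | h'
    · have h' : ((i : ℕ) : ℝ) + 1 ≤ (j : ℕ) := by exact_mod_cast h'
      linarith
    · have h' : ((i : ℕ) : ℝ) = (j : ℕ) := by exact_mod_cast h'
      linarith
    · have h' : ((i : ℕ) : ℝ) = (j : ℕ) + 1 := by exact_mod_cast h'
      linarith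
    · have h' : ((j : ℕ) : ℝ) + 2 ≤ (i : ℕ) := by exact_mod_cast h'
      linarith
  have hcont : ContinuousOn F (Set.Icc l r) := by
    refine continuousOn_finset_sum _ fun i _ => ?_
    exact (continuousOn_const.sub continuousOn_id).inv₀ (fun a ha => hnz a ha i)
  obtain ⟨a, ha, hFa⟩ := intermediate_value_Icc hlr hcont ⟨hneg.le, hpos.le⟩
  refine ⟨a, ?_, ?_, hFa⟩
  · have := ha.1; rw [hl] at this; linarith
  · have := ha.2; rw [hr] at this; linarith

/-- the parameters `a j` -/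
noncomputable def aj (m : ℕ) (j : Fin m) : ℝ := (exists_zero m j).choose

theorem aj_spec (m : ℕ) (j : Fin m) :
    (j : ℕ) + 1 < aj m j ∧ aj m j < (j : ℕ) + 2 ∧ ∑ i : Fin (m + 1), (mu i - aj m j)⁻¹ = 0 :=
  (exists_zero m j).choose_spec

theorem aj_pos (m : ℕ) (j : Fin m) : 0 < aj m j := by
  have := (aj_spec m j).1
  have h2 : (0 : ℝ) ≤ (j : ℕ) := Nat.cast_nonneg _
  linarith

theorem mu_sub_aj_ne (m : ℕ) (j : Fin m) (i : Fin (m + 1)) : mu i - aj m j ≠ 0 := by
  intro h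
  obtain ⟨h1, h2, _⟩ := aj_spec m j
  rw [mu] at h
  have h3 : (j : ℕ) < (i : ℕ) := by
    have : ((j : ℕ) : ℝ) < (i : ℕ) := by linarith
    exact_mod_cast this
  have h4 : (i : ℕ) < (j : ℕ) + 1 := by
    have : ((i : ℕ) : ℝ) < ((j : ℕ) : ℝ) + 1 := by linarith
    exact_mod_cast this
  omega

theorem aj_ne (m : ℕ) {j l : Fin m} (h : l ≠ j) : aj m l - aj m j ≠ 0 := by
  intro h0
  obtain ⟨h1, h2, _⟩ := aj_spec m j
  obtain ⟨h3, h4, _⟩ := aj_spec m l
  apply h
  ext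
  have h5 : (j : ℕ) < (l : ℕ) + 1 := by
    have : ((j : ℕ) : ℝ) < (l : ℕ) + 1 := by linarith
    exact_mod_cast this
  have h6 : (l : ℕ) < (j : ℕ) + 1 := by
    have : ((l : ℕ) : ℝ) < (j : ℕ) + 1 := by linarith
    exact_mod_cast this
  omega

/-- the positive numbers `g j = ∑ 1 / (μ i - a j)²` -/
noncomputable def gj (m : ℕ) (j : Fin m) : ℝ := ∑ i : Fin (m + 1), ((mu i - aj m j)⁻¹) ^ 2

theorem gj_pos (m : ℕ) (j : Fin m) : 0 < gj m j := by
  unfold gj
  refine Finset.sum_pos (fun i _ => ?_) ⟨0, Finset.mem_univ _⟩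
  have := inv_ne_zero (mu_sub_aj_ne m j i)
  positivity

end Pool.Agent.Work.MP_09e03f_lc
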