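import Pool.Agent.Work.MP_09e03f_lc.Weight
import Pool.Agent.Work.MP_09e03f_lc.Params

/-!
# From real boundary points to complex points
-/

namespace Pool.Agent.Work.MP_09e03f_lc

open MvPolynomial Filter Topology

variable {m : ℕ}

section defs
variable {K : Type*} [Field K] [Algebra ℝ K]

/-- `∑ 1 / (r + μ i)²` -/
noncomputable def A0 (m : ℕ) (r : K) : K := ∑ i : Fin (m + 1), ((r + algebraMap ℝ K (mu i))⁻¹) ^ 2

/-- `∑ 1 / (r + μ i)` -/
noncomputable def C0 (m : ℕ) (r : K) : K := ∑ i : Fin (m + 1), (r + algebraMap ℝ K (mu i))⁻¹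

/-- the coordinates `w` -/
noncomputable def ww (r : K) (x : Fin m → K) (j : Fin m) : K := (r + algebraMap ℝ K (aj m j)) * x j

/-- the coordinate `v` -/
noncomputable def vv (r : K) (x : Fin m → K) : K := ∑ j, x j ^ 2 + A0 m r

/-- the square of the coordinate `u` -/
noncomputable def tt (r : K) (x : Fin m → K) : K :=
  r * vv r x + ∑ j, x j ^ 2 * (r + algebraMap ℝ K (aj m j)) + C0 m r - vv r x ^ 2 -
    ∑ j, ww r x j ^ 2

/-- the product of the denominators -/
noncomputable def Del (m : ℕ) (r : K) : K := ∏ i : Fin (m + 1), (r + algebraMap ℝ K (mu i))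

end defs

/-- coordinates of `(r, x)` -/
def ptx {R : Type*} (r : R) (x : Fin m → R) : Option (Fin m) → R := fun o => o.elim r x

/-- Functions that become polynomials with real coefficients after multiplication by a power of
`Del`. -/
def Good (F : ℂ → (Fin m → ℂ) → ℂ) : Prop :=
  ∃ (D : ℕ) (N : MvPolynomial (Option (Fin m)) ℝ), ∀ r x,
    (∀ i : Fin (m + 1), r + algebraMap ℝ ℂ (mu i) ≠ 0) →
      (Del m r) ^ D * F r x = aeval (ptx r x) N

/-- the polynomial `Del` -/
noncomputable def delPoly (m : ℕ) : MvPolynomial (Option (Fin m)) ℝ :=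
  ∏ i : Fin (m + 1), (X none + C (mu i))

theorem aeval_delPoly (r : ℂ) (x : Fin m → ℂ) : aeval (ptx r x) (delPoly m) = Del m r := by
  unfold delPoly Del
  rw [map_prod]
  refine Finset.prod_congr rfl fun i _ => ?_
  rw [map_add, aeval_X, aeval_C]
  rfl

theorem good_const (c : ℝ) : Good (m := m) (fun _ _ => (c : ℂ)) :=
  ⟨0, C c, fun r x _ => by rw [aeval_C]; simp⟩

theorem good_r : Good (m := m) (fun r _ => r) :=
  ⟨0, X none, fun r x _ => by rw [aeval_X]; simp [ptx]⟩

theorem good_x (j : Fin m) : Good (m := m) (fun _ x => x j) :=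
  ⟨0, X (some j), fun r x _ => by rw [aeval_X]; simp [ptx]⟩

theorem Good.add {F G : ℂ → (Fin m → ℂ) → ℂ} (hF : Good F) (hG : Good G) :
    Good (fun r x => F r x + G r x) := by
  obtain ⟨D₁, N₁, h₁⟩ := hF
  obtain ⟨D₂, N₂, h₂⟩ := hG
  refine ⟨D₁ + D₂, delPoly m ^ D₂ * N₁ + delPoly m ^ D₁ * N₂, fun r x hr => ?_⟩
  rw [map_add, map_mul, map_mul, map_pow, map_pow, aeval_delPoly, ← h₁ r x hr, ← h₂ r x hr]
  ring

theorem Good.mul {F G : ℂ → (Fin m → ℂ) → ℂ} (hF : Good F) (hG : Good G) :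
    Good (fun r x => F r x * G r x) := by
  obtain ⟨D₁, N₁, h₁⟩ := hF
  obtain ⟨D₂, N₂, h₂⟩ := hG
  refine ⟨D₁ + D₂, N₁ * N₂, fun r x hr => ?_⟩
  rw [map_mul, ← h₁ r x hr, ← h₂ r x hr]
  ring

theorem Good.neg {F : ℂ → (Fin m → ℂ) → ℂ} (hF : Good F) : Good (fun r x => - F r x) := by
  obtain ⟨D₁, N₁, h₁⟩ := hF
  exact ⟨D₁, -N₁, fun r x hr => by rw [map_neg, ← h₁ r x hr]; ring⟩

theorem Good.sub {F G : ℂ → (Fin m → ℂ) → ℂ} (hF : Good F) (hG : Good G) :
    Good (fun r x => F r x - G r x) := by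
  simpa [sub_eq_add_neg] using hF.add hG.neg

theorem Good.pow {F : ℂ → (Fin m → ℂ) → ℂ} (hF : Good F) (n : ℕ) :
    Good (fun r x => F r x ^ n) := by
  induction n with
  | zero => simpa using good_const (m := m) 1
  | succ n ih => simpa [pow_succ] using ih.mul hF

theorem Good.sum {ι : Type*} (s : Finset ι) {F : ι → ℂ → (Fin m → ℂ) → ℂ} (hF : ∀ i, Good (F i)) :
    Good (fun r x => ∑ i ∈ s, F i r x) := by
  classical
  induction s using Finset.induction_on with
  | empty => simpa using good_const (m := m) 0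
  | insert a s ha ih =>
    simp_rw [Finset.sum_insert ha]
    exact (hF a).add ih

theorem good_inv (i : Fin (m + 1)) : Good (m := m) (fun r _ => (r + algebraMap ℝ ℂ (mu i))⁻¹) := by
  classical
  refine ⟨1, ∏ l ∈ Finset.univ.erase i, (X none + C (mu l)), fun r x hr => ?_⟩
  rw [map_prod, pow_one, Del, ← Finset.mul_prod_erase Finset.univ _ (Finset.mem_univ i),
    mul_comm (r + algebraMap ℝ ℂ (mu i)), mul_assoc, mul_inv_cancel₀ (hr i), mul_one]
  refine Finset.prod_congr rfl fun l _ => ?_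
  rw [map_add, aeval_X, aeval_C]
  rfl

theorem good_A0 : Good (m := m) (fun r _ => A0 m r) :=
  Good.sum _ fun i => (good_inv i).pow 2

theorem good_C0 : Good (m := m) (fun r _ => C0 m r) :=
  Good.sum _ fun i => good_inv i

theorem good_ww (j : Fin m) : Good (m := m) (fun r x => ww r x j) :=
  (good_r.add (good_const _)).mul (good_x j)

theorem good_vv : Good (m := m) (fun r x => vv r x) :=
  (Good.sum _ fun j => (good_x j).pow 2).add good_A0

theorem good_tt : Good (m := m) (fun r x => tt r x) :=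
  ((((good_r.mul good_vv).add (Good.sum _ fun j =>
    ((good_x j).pow 2).mul (good_r.add (good_const _)))).add good_C0).sub (good_vv.pow 2)).sub
    (Good.sum _ fun j => (good_ww j).pow 2)

/-- Decomposition along the double cover `u² = tt`. -/
theorem exists_EO (Q : MvPolynomial (Yi m) ℝ) : ∃ E O : ℂ → (Fin m → ℂ) → ℂ, Good E ∧ Good O ∧
    ∀ r x u, u ^ 2 = tt r x → aeval (pt (ww r x) u (vv r x)) Q = E r x + u * O r x := by
  induction Q using MvPolynomial.induction_on with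
  | C c =>
    refine ⟨fun _ _ => (c : ℂ), fun _ _ => 0, good_const c, by simpa using good_const (m := m) 0,
      fun r x u _ => ?_⟩
    rw [aeval_C]; simp
  | add p q hp hq =>
    obtain ⟨E₁, O₁, hE₁, hO₁, h₁⟩ := hp
    obtain ⟨E₂, O₂, hE₂, hO₂, h₂⟩ := hq
    refine ⟨_, _, hE₁.add hE₂, hO₁.add hO₂, fun r x u hu => ?_⟩
    rw [map_add, h₁ r x u hu, h₂ r x u hu]; ring
  | mul_X p i hp =>
    obtain ⟨E, O, hE, hO, h⟩ := hp
    rcases i with j | i
    · refine ⟨_, _, hE.mul (good_ww j), hO.mul (good_ww j), fun r x u hu => ?_⟩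
      rw [map_mul, h r x u hu, aeval_X]
      show _ * ww r x j = _
      ring
    · fin_cases i
      · refine ⟨_, _, hO.mul good_tt, hE, fun r x u hu => ?_⟩
        rw [map_mul, h r x u hu, aeval_X]
        show _ * u = _
        rw [← hu]; ring
      · refine ⟨_, _, hE.mul good_vv, hO.mul good_vv, fun r x u hu => ?_⟩
        rw [map_mul, h r x u hu, aeval_X]
        show _ * vv r x = _
        ring

theorem good_norm (Q : MvPolynomial (Yi m) ℝ) : ∃ F : ℂ → (Fin m → ℂ) → ℂ, Good F ∧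
    ∀ r x u, u ^ 2 = tt r x →
      aeval (pt (ww r x) u (vv r x)) Q * aeval (pt (ww r x) (-u) (vv r x)) Q = F r x := by
  obtain ⟨E, O, hE, hO, h⟩ := exists_EO Q
  refine ⟨_, (hE.pow 2).sub (good_tt.mul (hO.pow 2)), fun r x u hu => ?_⟩
  rw [h r x u hu, h r x (-u) (by rw [neg_sq]; exact hu), ← hu]
  ring

section cast

theorem A0_ofReal (r : ℝ) : A0 m (r : ℂ) = ((A0 m r : ℝ) : ℂ) := by
  unfold A0; push_cast; rfl

theorem C0_ofReal (r : ℝ) : C0 m (r : ℂ) = ((C0 m r : ℝ) : ℂ) := by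
  unfold C0; push_cast; rfl

theorem ww_ofReal (r : ℝ) (x : Fin m → ℝ) (j : Fin m) :
    ww (r : ℂ) (fun j => (x j : ℂ)) j = ((ww r x j : ℝ) : ℂ) := by
  unfold ww; push_cast; rfl

theorem vv_ofReal (r : ℝ) (x : Fin m → ℝ) :
    vv (r : ℂ) (fun j => (x j : ℂ)) = ((vv r x : ℝ) : ℂ) := by
  unfold vv; rw [A0_ofReal]; push_cast; rfl

theorem tt_ofReal (r : ℝ) (x : Fin m → ℝ) :
    tt (r : ℂ) (fun j => (x j : ℂ)) = ((tt r x : ℝ) : ℂ) := by
  unfold tt
  rw [C0_ofReal, vv_ofReal]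
  simp_rw [ww_ofReal]
  push_cast
  rfl

theorem aeval_ofReal {ι : Type*} (Q : MvPolynomial ι ℝ) (y : ι → ℝ) :
    aeval (fun i => (y i : ℂ)) Q = ((eval y Q : ℝ) : ℂ) := by
  have h : (fun i => (y i : ℂ)) = algebraMap ℝ ℂ ∘ y := rfl
  rw [h, aeval_algebraMap_apply]
  simp [aeval_eq_eval]

end cast

/-- If at every point of a real box one of finitely many polynomials vanishes at
`(w, √tt, v)`, then one of them satisfies `Q(u) Q(-u) = 0` at all complex points. -/
theorem exists_vanishing (𝒬 : Finset (MvPolynomial (Yi m) ℝ)) (I : Set ℝ) (J : Fin m → Set ℝ)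
    (hI : I.Infinite) (hJ : ∀ j, (J j).Infinite)
    (hpos : ∀ r ∈ I, ∀ x : Fin m → ℝ, (∀ j, x j ∈ J j) → 0 ≤ tt r x)
    (hIpos : ∀ r ∈ I, 0 < r)
    (h : ∀ r ∈ I, ∀ x : Fin m → ℝ, (∀ j, x j ∈ J j) →
      ∃ Q ∈ 𝒬, eval (pt (ww r x) (√(tt r x)) (vv r x)) Q = 0) :
    ∃ Q ∈ 𝒬, ∀ (r : ℂ) (x : Fin m → ℂ) (u : ℂ),
      (∀ i : Fin (m + 1), r + algebraMap ℝ ℂ (mu i) ≠ 0) → u ^ 2 = tt r x →
      aeval (pt (ww r x) u (vv r x)) Q * aeval (pt (ww r x) (-u) (vv r x)) Q = 0 := by
  classical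
  choose F hF hFQ using fun Q : MvPolynomial (Yi m) ℝ => good_norm Q
  choose D N hN using hF
  have hzero : ∏ Q ∈ 𝒬, N Q = 0 := by
    apply MvPolynomial.funext_set (fun o : Option (Fin m) => o.elim I J)
    · intro o; cases o
      · exact hI
      · exact hJ _
    · intro z hz
      rw [map_zero]
      set r := z none with hr
      set x : Fin m → ℝ := fun j => z (some j) with hx
      have hrI : r ∈ I := hz none trivial
      have hxJ : ∀ j, x j ∈ J j := fun j => hz (some j) trivial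
      obtain ⟨Q, hQ, hQ0⟩ := h r hrI x hxJ
      rw [map_prod]
      apply Finset.prod_eq_zero hQ
      have hz' : (fun o => (z o : ℂ)) = ptx (r : ℂ) (fun j => (x j : ℂ)) := by
        funext o; cases o <;> rfl
      have h1 : ((eval z (N Q) : ℝ) : ℂ) = 0 := by
        rw [← aeval_ofReal, hz', ← hN Q]
        · have hu : ((√(tt r x) : ℝ) : ℂ) ^ 2 = tt (r : ℂ) (fun j => (x j : ℂ)) := by
            rw [tt_ofReal, ← Complex.ofReal_pow, Real.sq_sqrt (hpos r hrI x hxJ)]
          rw [← hFQ Q _ _ _ hu]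
          have h2 : pt (ww (r : ℂ) (fun j => (x j : ℂ))) ((√(tt r x) : ℝ) : ℂ)
              (vv (r : ℂ) (fun j => (x j : ℂ))) =
              fun i => ((pt (ww r x) (√(tt r x)) (vv r x) i : ℝ) : ℂ) := by
            funext i
            rcases i with j | i
            · exact ww_ofReal r x j
            · fin_cases i
              · rfl
              · exact vv_ofReal r x
          rw [h2, aeval_ofReal, hQ0]
          simp
        · intro i
          have h3 : 0 < r + mu i := add_pos (hIpos r hrI) (mu_pos i)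
          have h4 : (r : ℂ) + algebraMap ℝ ℂ (mu i) = ((r + mu i : ℝ) : ℂ) := by push_cast; rfl
          rw [h4]
          exact_mod_cast h3.ne'
      exact_mod_cast h1
  obtain ⟨Q, hQ, hNQ⟩ := Finset.prod_eq_zero_iff.1 hzero
  refine ⟨Q, hQ, fun r x u hr hu => ?_⟩
  rw [hFQ Q r x u hu]
  have h1 := hN Q r x hr
  rw [hNQ, map_zero] at h1
  rcases mul_eq_zero.1 h1 with h2 | h2
  · exfalso
    exact (pow_ne_zero _ (Finset.prod_ne_zero_iff.2 fun i _ => hr i)) h2
  · exact h2

end Pool.Agent.Work.MP_09e03f_lc
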