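import Mathlib

/-!
# Quantifier-free descriptions of projections of basic closed semi-algebraic sets
-/

namespace Pool.Agent.Work.MP_09e03f_lc

open MvPolynomial

/-- Quantifier-free formulas in real variables indexed by `ι`: finite Boolean combinations of sign
conditions `Q > 0`, `Q = 0`, `Q < 0`. To be as generous as possible, the polynomial `Q` of a sign
condition may be written as a product `Q = Q₁ ⋯ Q_s` of finitely many real polynomials; the list
`[Q]` with one entry is the sign condition on `Q` itself. -/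
inductive QF (ι : Type)
  | pos (Qs : List (MvPolynomial ι ℝ))
  | zero (Qs : List (MvPolynomial ι ℝ))
  | neg (Qs : List (MvPolynomial ι ℝ))
  | not (φ : QF ι)
  | and (φ ψ : QF ι)
  | or (φ ψ : QF ι)

namespace QF

variable {ι : Type}

/-- Truth of a formula at a point. -/
def Holds : QF ι → (ι → ℝ) → Prop
  | pos Qs, y => 0 < eval y Qs.prod
  | zero Qs, y => eval y Qs.prod = 0
  | neg Qs, y => eval y Qs.prod < 0
  | not φ, y => ¬ φ.Holds y
  | and φ ψ, y => φ.Holds y ∧ ψ.Holds y
  | or φ ψ, y => φ.Holds y ∨ ψ.Holds y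

/-- The list of all polynomials written in a formula. -/
def factors : QF ι → List (MvPolynomial ι ℝ)
  | pos Qs => Qs
  | zero Qs => Qs
  | neg Qs => Qs
  | not φ => φ.factors
  | and φ ψ => φ.factors ++ ψ.factors
  | or φ ψ => φ.factors ++ ψ.factors

end QF

/-- The set `S = {(x, y) : P₁(x,y) ≥ 0, …, P_ℓ(x,y) ≥ 0}`. The variables `X` are indexed by `κ`
and the variables `Y` by `ι`. -/
def basicSet {ℓ : ℕ} {κ ι : Type} (P : Fin ℓ → MvPolynomial (κ ⊕ ι) ℝ) :
    Set ((κ → ℝ) × (ι → ℝ)) :=
  {z | ∀ i, 0 ≤ eval (Sum.elim z.1 z.2) (P i)}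

/-- The projection `π(S)` to the `Y` coordinates. -/
def proj {ℓ : ℕ} {κ ι : Type} (P : Fin ℓ → MvPolynomial (κ ⊕ ι) ℝ) : Set (ι → ℝ) :=
  {y | ∃ x, (x, y) ∈ basicSet P}

/-- Admissible inputs: `ℓ` polynomials of degree at most two in `k + m` variables such that `S` is
closed and bounded. -/
structure Admissible {ℓ k m : ℕ} (P : Fin ℓ → MvPolynomial (Fin k ⊕ Fin m) ℝ) : Prop where
  degree_le : ∀ i, (P i).totalDegree ≤ 2
  isClosed : IsClosed (basicSet P)
  isBounded : Bornology.IsBounded (basicSet P)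

/-- The coefficients of the input. -/
def inputs {ℓ k m : ℕ} (P : Fin ℓ → MvPolynomial (Fin k ⊕ Fin m) ℝ) : Set ℝ :=
  {a | ∃ i d, a = (P i).coeff d}

/-- `b` is the result of one arithmetic operation on numbers in `A`. -/
def IsStep (A : Set ℝ) (b : ℝ) : Prop :=
  ∃ x ∈ A, ∃ y ∈ A, b = x + y ∨ b = x - y ∨ b = x * y ∨ b = x / y

/-- `L` is the record (last result first) of a computation that starts with the numbers in `A`:
every entry of `L` is the result of one arithmetic operation on numbers that are in `A` or were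
computed before. -/
def IsComputation (A : Set ℝ) : List ℝ → Prop
  | [] => True
  | b :: L => IsStep (A ∪ {a | a ∈ L}) b ∧ IsComputation A L

/-- `φ` is a semi-algebraic description of `π(S)`. -/
def Describes {ℓ k m : ℕ} (φ : QF (Fin m)) (P : Fin ℓ → MvPolynomial (Fin k ⊕ Fin m) ℝ) : Prop :=
  ∀ y, φ.Holds y ↔ y ∈ proj P

end Pool.Agent.Work.MP_09e03f_lc
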