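import Mathlib

/-!
# Generic scalings force many distinct coefficients

If every nonzero polynomial vanishing on a set `H` has at least `K` monomials, then, for generic
`l`, every nonzero polynomial vanishing on the scaled set `l * H` has at least `K` distinct nonzero
coefficients.
-/

namespace Pool.Agent.Work.MP_09e03f_lc

open MvPolynomial Filter Topology

variable {ι : Type} [Fintype ι]

/-- the value of a monomial -/
def mval (s : ι →₀ ℕ) (y : ι → ℝ) : ℝ := ∏ i, y i ^ s i

theorem mval_mul (s : ι →₀ ℕ) (l y : ι → ℝ) : mval s (l * y) = mval s l * mval s y := by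
  unfold mval
  rw [← Finset.prod_mul_distrib]
  exact Finset.prod_congr rfl fun i _ => by rw [Pi.mul_apply, mul_pow]

theorem eval_eq_sum_mval (Q : MvPolynomial ι ℝ) (y : ι → ℝ) :
    eval y Q = ∑ s ∈ Q.support, Q.coeff s * mval s y := eval_eq' y Q

/-- sum of the monomials in `S` -/
def qval (S : Finset (ι →₀ ℕ)) (y : ι → ℝ) : ℝ := ∑ s ∈ S, mval s y

/-- the polynomial `l ↦ qval S (l * h)` -/
noncomputable def qpoly (S : Finset (ι →₀ ℕ)) (h : ι → ℝ) : MvPolynomial ι ℝ :=
  ∑ s ∈ S, monomial s (mval s h)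

theorem eval_qpoly (S : Finset (ι →₀ ℕ)) (h l : ι → ℝ) :
    eval l (qpoly S h) = qval S (l * h) := by
  unfold qpoly qval
  rw [map_sum]
  refine Finset.sum_congr rfl fun s _ => ?_
  rw [eval_monomial, mval_mul, Finsupp.prod_fintype _ _ (fun i => pow_zero _), mul_comm]
  rfl

/-- the determinants which must not vanish -/
noncomputable def detPoly {N : ℕ} (S : Fin N → Finset (ι →₀ ℕ)) (h : Fin N → ι → ℝ) :
    MvPolynomial ι ℝ :=
  (Matrix.of fun i j => qpoly (S i) (h j)).det

theorem eval_detPoly {N : ℕ} (S : Fin N → Finset (ι →₀ ℕ)) (h : Fin N → ι → ℝ) (l : ι → ℝ) :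
    eval l (detPoly S h) = (Matrix.of fun i j => qval (S i) (l * h j)).det := by
  unfold detPoly
  rw [RingHom.map_det]
  congr 1
  ext i j
  exact eval_qpoly (S i) (h j) l

/-- `l` is generic with respect to a set of points. -/
def Generic (H : Set (ι → ℝ)) (l : ι → ℝ) : Prop :=
  ∀ (N : ℕ) (S : Fin N → Finset (ι →₀ ℕ)) (h : Fin N → ι → ℝ), (∀ j, h j ∈ H) →
    detPoly S h ≠ 0 → eval l (detPoly S h) ≠ 0

/-- zero sets of nonzero polynomials have dense complements -/
theorem dense_ne_zero (p : MvPolynomial ι ℝ) (hp : p ≠ 0) : Dense {l : ι → ℝ | eval l p ≠ 0} := by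
  rw [dense_iff_inter_open]
  intro U hU ⟨z, hz⟩
  obtain ⟨ε, hε, hball⟩ := Metric.isOpen_iff.1 hU z hz
  by_contra hcon
  apply hp
  apply MvPolynomial.funext_set (fun i => Set.Ioo (z i - ε) (z i + ε))
    (fun i => Set.Ioo_infinite (by linarith))
  intro x hx
  rw [map_zero]
  by_contra hne
  apply hcon
  refine ⟨x, hball ?_, hne⟩
  rw [Metric.mem_ball, dist_pi_lt_iff hε]
  intro i
  have h1 := hx i trivial
  rw [Real.dist_eq, abs_lt]
  constructor
  · have := h1.1; linarith
  · have := h1.2; linarith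

theorem exists_generic (H : Set (ι → ℝ)) (hH : H.Countable) :
    ∃ l : ι → ℝ, (∀ i, 0 < l i) ∧ Generic H l := by
  classical
  have hc : Countable H := hH.to_subtype
  let J : Type := Σ N : ℕ, (Fin N → Finset (ι →₀ ℕ)) × (Fin N → H)
  let f : J → Set (ι → ℝ) := fun a =>
    if detPoly a.2.1 (fun j => (a.2.2 j : ι → ℝ)) = 0 then Set.univ
    else {l | eval l (detPoly a.2.1 (fun j => (a.2.2 j : ι → ℝ))) ≠ 0}
  have hopen : ∀ a, IsOpen (f a) := by
    intro a
    simp only [f]
    split_ifs
    · exact isOpen_univ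
    · exact isOpen_ne_fun (MvPolynomial.continuous_eval _) continuous_const
  have hdense : ∀ a, Dense (f a) := by
    intro a
    simp only [f]
    split_ifs with h
    · exact dense_univ
    · exact dense_ne_zero _ h
  have hD : Dense (⋂ a, f a) := dense_iInter_of_isOpen hopen hdense
  have hpos : IsOpen {l : ι → ℝ | ∀ i, 0 < l i} := by
    rw [Set.ofPred_forall]
    exact isOpen_iInter_of_finite fun i => isOpen_lt continuous_const (continuous_apply i)
  obtain ⟨l, hl1, hl2⟩ := hD.inter_open_nonempty _ hpos ⟨fun _ => 1, fun _ => one_pos⟩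
  refine ⟨l, hl1, fun N S h hh hne => ?_⟩
  have := Set.mem_iInter.1 hl2 ⟨N, S, fun j => ⟨h j, hh j⟩⟩
  simp only [f] at this
  rw [if_neg hne] at this
  exact this

/-- If all `N`-tuples of a family of vectors in `ℝ^N` are dependent, then some nonzero functional
vanishes on the family. -/
theorem exists_coeffs {N : ℕ} {α : Type*} (v : α → Fin N → ℝ)
    (h : ∀ a : Fin N → α, (Matrix.of fun i j => v (a j) i).det = 0) :
    ∃ c : Fin N → ℝ, c ≠ 0 ∧ ∀ a, ∑ i, c i * v a i = 0 := by
  classical
  set W : Submodule ℝ (Fin N → ℝ) := Submodule.span ℝ (Set.range v) with hW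
  have hlt : W < ⊤ := by
    rw [lt_top_iff_ne_top]
    intro htop
    obtain ⟨b, hb1, hb2, hb3⟩ := exists_linearIndependent ℝ (Set.range v)
    have hspan : Submodule.span ℝ b = ⊤ := by rw [hb2, ← hW, htop]
    let B := Module.Basis.mk hb3 (by rw [Subtype.range_coe]; exact hspan.ge)
    have : Fintype b := FiniteDimensional.fintypeBasisIndex B
    have hcard : Fintype.card b = N := by
      have h1 := Module.finrank_eq_card_basis B
      rw [Module.finrank_fin_fun] at h1
      exact h1.symm
    let e : Fin N ≃ b := (Fintype.equivFinOfCardEq hcard).symm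
    have hex : ∀ j, ∃ a, v a = (e j : Fin N → ℝ) := fun j => hb1 (e j).2
    choose a ha using hex
    have hli : LinearIndependent ℝ (fun j => v (a j)) := by
      have h2 : (fun j => v (a j)) = (fun x : b => (x : Fin N → ℝ)) ∘ e := by
        funext j; exact ha j
      rw [h2]
      exact hb3.comp e e.injective
    have h3 : IsUnit (Matrix.of fun i j => v (a j) i) := by
      rw [← Matrix.linearIndependent_cols_iff_isUnit]
      exact hli
    rw [Matrix.isUnit_iff_isUnit_det, h a] at h3
    exact not_isUnit_zero h3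
  obtain ⟨f, hf0, hf⟩ := Submodule.exists_le_ker_of_lt_top W hlt
  refine ⟨fun i => f (Pi.single i 1), ?_, fun a => ?_⟩
  · intro h0
    apply hf0
    apply LinearMap.pi_ext'
    intro i
    ext
    simpa using congrFun h0 i
  · have h1 : f (v a) = 0 := hf (Submodule.subset_span ⟨a, rfl⟩)
    rw [← h1]
    conv_rhs => rw [← LinearMap.sum_single_apply (fun _ : Fin N => ℝ) (v a)]
    rw [map_sum]
    refine Finset.sum_congr rfl fun i _ => ?_
    have h2 : (Pi.single i (v a i) : Fin N → ℝ) = (v a i) • Pi.single i (1 : ℝ) := by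
      ext j
      by_cases hj : j = i
      · subst hj; simp
      · simp [hj]
    show f (Pi.single i 1) * v a i = f (Pi.single i (v a i))
    rw [h2, map_smul, smul_eq_mul, mul_comm]

/-- weights separating finitely many exponents -/
theorem exists_weights (A : Finset (ι →₀ ℕ)) :
    ∃ w : ι → ℕ, Set.InjOn (fun s : ι →₀ ℕ => ∑ i, w i * s i) A := by
  classical
  -- the integer weights avoid the zeros of a nonzero polynomial
  let p : MvPolynomial ι ℚ := ∏ s ∈ A, ∏ t ∈ A, if s = t then 1 else
    ∑ i, C ((s i : ℚ) - (t i : ℚ)) * X i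
  have hp : p ≠ 0 := by
    refine Finset.prod_ne_zero_iff.2 fun s _ => Finset.prod_ne_zero_iff.2 fun t _ => ?_
    split_ifs with h
    · exact one_ne_zero
    · intro h0
      apply h
      ext i
      have h1 := congrArg (eval (Pi.single i (1 : ℚ))) h0
      rw [map_sum, map_zero, Finset.sum_eq_single i] at h1
      · simp only [map_mul, eval_C, eval_X, Pi.single_eq_same, mul_one] at h1
        have : (s i : ℚ) = t i := by linarith
        exact_mod_cast this
      · intro j _ hj
        simp [hj]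
      · intro hi; exact absurd (Finset.mem_univ i) hi
  have hinf : (Set.range ((↑) : ℕ → ℚ)).Infinite := Set.infinite_range_of_injective Nat.cast_injective
  have hex : ∃ x : ι → ℚ, (∀ i, x i ∈ Set.range ((↑) : ℕ → ℚ)) ∧ eval x p ≠ 0 := by
    by_contra hcon
    push Not at hcon
    apply hp
    apply MvPolynomial.funext_set (fun _ => Set.range ((↑) : ℕ → ℚ)) (fun _ => hinf)
    intro x hx
    rw [map_zero]
    exact hcon x (fun i => hx i trivial)
  obtain ⟨x, hx1, hx2⟩ := hex
  choose w hw using hx1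
  refine ⟨w, fun s hs t ht hst => ?_⟩
  by_contra hne
  apply hx2
  rw [map_prod]
  refine Finset.prod_eq_zero hs ?_
  rw [map_prod]
  refine Finset.prod_eq_zero ht ?_
  rw [if_neg hne, map_sum]
  simp only [map_mul, eval_C, eval_X]
  have h1 : (∑ i, (w i : ℚ) * s i) = ∑ i, (w i : ℚ) * t i := by
    have : (∑ i, w i * s i) = ∑ i, w i * t i := hst
    exact_mod_cast this
  have h2 : ∑ i, ((s i : ℚ) - t i) * x i = ∑ i, (w i : ℚ) * s i - ∑ i, (w i : ℚ) * t i := by
    rw [← Finset.sum_sub_distrib]
    refine Finset.sum_congr rfl fun i _ => ?_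
    rw [← hw i]; ring
  rw [h2, h1, sub_self]

theorem mval_weights (w : ι → ℕ) (t : ℝ) (s : ι →₀ ℕ) :
    mval s (fun i => t ^ w i) = t ^ (∑ i, w i * s i) := by
  unfold mval
  rw [← Finset.prod_pow_eq_pow_sum]
  exact Finset.prod_congr rfl fun i _ => by rw [← pow_mul]

/-- **The limit argument.** -/
theorem exists_sparse {N : ℕ} (S : Fin N → Finset (ι →₀ ℕ)) (hne : ∀ i, (S i).Nonempty)
    (hdisj : ∀ i j, i ≠ j → Disjoint (S i) (S j)) (H : Set (ι → ℝ))
    (h : ∀ l : ι → ℝ, ∃ c : Fin N → ℝ, c ≠ 0 ∧ ∀ y ∈ H, ∑ i, c i * qval (S i) (l * y) = 0) :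
    ∃ Q : MvPolynomial ι ℝ, Q ≠ 0 ∧ Q.support.card ≤ N ∧ ∀ y ∈ H, eval y Q = 0 := by
  classical
  obtain ⟨w, hw⟩ := exists_weights (Finset.univ.biUnion S)
  let W : (ι →₀ ℕ) → ℕ := fun s => ∑ i, w i * s i
  have hmin : ∀ i, ∃ s ∈ S i, ∀ t ∈ S i, W s ≤ W t := fun i =>
    Finset.exists_min_image (S i) W (hne i)
  choose s hs hsmin using hmin
  have hslt : ∀ i, ∀ t ∈ S i, t ≠ s i → W (s i) < W t := by
    intro i t ht htne
    refine lt_of_le_of_ne (hsmin i t ht) fun heq => htne ?_
    refine hw ?_ ?_ heq.symm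
    · exact Finset.mem_coe.2 (Finset.mem_biUnion.2 ⟨i, Finset.mem_univ _, ht⟩)
    · exact Finset.mem_coe.2 (Finset.mem_biUnion.2 ⟨i, Finset.mem_univ _, hs i⟩)
  have hsinj : Function.Injective s := by
    intro i j hij
    by_contra hne'
    exact Finset.disjoint_left.1 (hdisj i j hne') (hs i) (hij ▸ hs j)
  -- normalised functions
  let g : Fin N → ℝ → (ι → ℝ) → ℝ := fun i t y => ∑ a ∈ S i, t ^ (W a - W (s i)) * mval a y
  have hg : ∀ i t y, qval (S i) ((fun j => t ^ w j) * y) = t ^ W (s i) * g i t y := by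
    intro i t y
    unfold qval
    simp only [g]
    rw [Finset.mul_sum]
    refine Finset.sum_congr rfl fun a ha => ?_
    rw [mval_mul, mval_weights, ← mul_assoc, ← pow_add, Nat.add_sub_cancel' (hsmin i a ha)]
  have hglim : ∀ i y, Tendsto (fun t => g i t y) (𝓝 0) (𝓝 (mval (s i) y)) := by
    intro i y
    have h1 : Continuous fun t : ℝ => g i t y := by
      simp only [g]
      exact continuous_finsetSum _ fun a _ => (continuous_pow _).mul continuous_const
    have h2 : g i 0 y = mval (s i) y := by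
      simp only [g]
      rw [Finset.sum_eq_single (s i)]
      · simp
      · intro a ha hne'
        have := hslt i a ha hne'
        rw [zero_pow (by omega), zero_mul]
      · intro h; exact absurd (hs i) h
    rw [← h2]
    exact h1.tendsto 0
  -- normalised coefficient vectors
  have hb : ∀ t : ℝ, 0 < t → ∃ b : Fin N → ℝ, b ∈ Metric.sphere (0 : Fin N → ℝ) 1 ∧
      ∀ y ∈ H, ∑ i, b i * g i t y = 0 := by
    intro t ht
    obtain ⟨c, hc0, hc⟩ := h (fun j => t ^ w j)
    let b₀ : Fin N → ℝ := fun i => c i * t ^ W (s i)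
    have hb₀ : b₀ ≠ 0 := by
      intro h0
      apply hc0
      funext i
      have := congrFun h0 i
      simp only [b₀, Pi.zero_apply, mul_eq_zero] at this
      rcases this with h1 | h1
      · exact h1
      · exact absurd h1 (pow_ne_zero _ ht.ne')
    refine ⟨‖b₀‖⁻¹ • b₀, ?_, ?_⟩
    · rw [mem_sphere_zero_iff_norm, norm_smul, norm_inv, norm_norm,
        inv_mul_cancel₀ (norm_ne_zero_iff.2 hb₀)]
    · intro y hy
      have h1 := hc y hy
      have h2 : ∑ i, (‖b₀‖⁻¹ • b₀) i * g i t y = ‖b₀‖⁻¹ * ∑ i, c i * qval (S i) ((fun j => t ^ w j) * y) := by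
        rw [Finset.mul_sum]
        refine Finset.sum_congr rfl fun i _ => ?_
        rw [hg, Pi.smul_apply, smul_eq_mul]
        simp only [b₀]
        ring
      rw [h2, h1, mul_zero]
  let tk : ℕ → ℝ := fun k => 1 / ((k : ℝ) + 1)
  have htk : ∀ k, 0 < tk k := fun k => Nat.one_div_pos_of_nat
  choose b hb1 hb2 using fun k : ℕ => hb (tk k) (htk k)
  obtain ⟨bl, hbl, φ, hφ, hlim⟩ := (isCompact_sphere (0 : Fin N → ℝ) 1).tendsto_subseq hb1
  have htk0 : Tendsto (fun k => tk (φ k)) atTop (𝓝 0) :=
    tendsto_one_div_add_atTop_nhds_zero_nat.comp hφ.tendsto_atTop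
  have hb0 : bl ≠ 0 := by
    intro h0
    rw [h0, mem_sphere_zero_iff_norm, norm_zero] at hbl
    exact zero_ne_one hbl
  have hfin : ∀ y ∈ H, ∑ i, bl i * mval (s i) y = 0 := by
    intro y hy
    have h1 : Tendsto (fun k => ∑ i, b (φ k) i * g i (tk (φ k)) y) atTop
        (𝓝 (∑ i, bl i * mval (s i) y)) := by
      refine tendsto_finsetSum _ fun i _ => ?_
      refine Tendsto.mul ?_ ((hglim i y).comp htk0)
      exact (continuous_apply i).continuousAt.tendsto.comp hlim
    have h2 : (fun k => ∑ i, b (φ k) i * g i (tk (φ k)) y) = fun _ => (0 : ℝ) := by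
      funext k; exact hb2 (φ k) y hy
    rw [h2] at h1
    exact tendsto_nhds_unique h1 tendsto_const_nhds
  -- the sparse polynomial
  have hcoeff : ∀ i, (∑ j, monomial (s j) (bl j) : MvPolynomial ι ℝ).coeff (s i) = bl i := by
    intro i
    rw [coeff_sum, Finset.sum_eq_single i]
    · rw [coeff_monomial, if_pos rfl]
    · intro j _ hj
      rw [coeff_monomial, if_neg]
      intro hcon
      exact hj (hsinj hcon)
    · intro hi; exact absurd (Finset.mem_univ i) hi
  refine ⟨∑ j, monomial (s j) (bl j), ?_, ?_, ?_⟩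
  · intro h0
    apply hb0
    funext i
    rw [← hcoeff i, h0]
    simp
  · have hsub : (∑ j, monomial (s j) (bl j) : MvPolynomial ι ℝ).support ⊆
        Finset.univ.image s := by
      intro a ha
      by_contra hcon
      apply mem_support_iff.1 ha
      rw [coeff_sum]
      refine Finset.sum_eq_zero fun j _ => ?_
      rw [coeff_monomial, if_neg]
      intro hj
      exact hcon (Finset.mem_image.2 ⟨j, Finset.mem_univ _, hj⟩)
    calc _ ≤ (Finset.univ.image s).card := Finset.card_le_card hsub
      _ ≤ (Finset.univ : Finset (Fin N)).card := Finset.card_image_le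
      _ = N := by simp
  · intro y hy
    rw [map_sum, ← hfin y hy]
    refine Finset.sum_congr rfl fun i _ => ?_
    rw [eval_monomial, Finsupp.prod_fintype _ _ (fun i => pow_zero _)]
    rfl

/-- **Many distinct coefficients.** -/
theorem card_coeffs_ge {K : ℕ} (H H' : Set (ι → ℝ)) (hsub : H' ⊆ H) (l : ι → ℝ) (hl : Generic H l)
    (hK : ∀ Q : MvPolynomial ι ℝ, Q ≠ 0 → (∀ y ∈ H', eval y Q = 0) → K ≤ Q.support.card)
    (Q : MvPolynomial ι ℝ) (hQ : Q ≠ 0) (hvan : ∀ y ∈ H', eval (l * y) Q = 0) :
    K ≤ (Q.support.image Q.coeff).card := by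
  classical
  set T := Q.support.image Q.coeff with hT
  set N := T.card with hN
  let e : Fin N ≃ T := T.equivFin.symm
  let S : Fin N → Finset (ι →₀ ℕ) := fun i => Q.support.filter fun s => Q.coeff s = (e i : ℝ)
  have hne : ∀ i, (S i).Nonempty := by
    intro i
    obtain ⟨s, hs, hse⟩ := Finset.mem_image.1 (e i).2
    exact ⟨s, Finset.mem_filter.2 ⟨hs, hse⟩⟩
  have hdisj : ∀ i j, i ≠ j → Disjoint (S i) (S j) := by
    intro i j hij
    rw [Finset.disjoint_left]
    intro s hs ht
    apply hij
    apply e.injective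
    apply Subtype.ext
    rw [← (Finset.mem_filter.1 hs).2, (Finset.mem_filter.1 ht).2]
  have hsum : ∀ y, eval y Q = ∑ i, (e i : ℝ) * qval (S i) y := by
    intro y
    rw [eval_eq_sum_mval]
    have h1 : ∀ s ∈ Q.support, Q.coeff s ∈ T := fun s hs => Finset.mem_image_of_mem _ hs
    rw [← Finset.sum_fiberwise_of_maps_to h1, ← Finset.sum_coe_sort T, ← e.sum_comp]
    refine Finset.sum_congr rfl fun i _ => ?_
    unfold qval
    rw [Finset.mul_sum]
    refine Finset.sum_congr rfl fun s hs => ?_
    rw [(Finset.mem_filter.1 hs).2]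
  have hdet : ∀ h : Fin N → ι → ℝ, (∀ j, h j ∈ H') → detPoly S h = 0 := by
    intro h hh
    by_contra hne'
    apply hl N S h (fun j => hsub (hh j)) hne'
    rw [eval_detPoly]
    -- a nonzero vector in the kernel of the transpose
    by_cases hN0 : N = 0
    · exfalso
      have : T = ∅ := Finset.card_eq_zero.1 (hN ▸ hN0)
      rw [hT, Finset.image_eq_empty] at this
      exact hQ (by simpa using this)
    · by_contra hdet
      have h1 : (Matrix.of fun i j => qval (S i) (l * h j)).vecMul (fun i => (e i : ℝ)) = 0 := by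
        funext j
        rw [Matrix.vecMul, Pi.zero_apply]
        show ∑ i, (e i : ℝ) * qval (S i) (l * h j) = 0
        rw [← hsum]
        exact hvan _ (hh j)
      have h2 := Matrix.eq_zero_of_vecMul_eq_zero hdet h1
      have h3 := congrFun h2 ⟨0, Nat.pos_of_ne_zero hN0⟩
      have h4 : (e ⟨0, Nat.pos_of_ne_zero hN0⟩ : ℝ) ≠ 0 := by
        obtain ⟨s, hs, hse⟩ := Finset.mem_image.1 (e ⟨0, Nat.pos_of_ne_zero hN0⟩).2
        rw [← hse]
        exact mem_support_iff.1 hs
      exact h4 h3
  obtain ⟨Q', hQ'0, hcard, hvan'⟩ := exists_sparse S hne hdisj H' (by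
    intro l'
    obtain ⟨c, hc0, hc⟩ := exists_coeffs (fun (a : H') i => qval (S i) (l' * (a : ι → ℝ))) (by
      intro a
      have h1 := eval_detPoly S (fun j => (a j : ι → ℝ)) l'
      rw [hdet _ (fun j => (a j).2), map_zero] at h1
      exact h1.symm)
    exact ⟨c, hc0, fun y hy => hc ⟨y, hy⟩⟩)
  exact (hK Q' hQ'0 hvan').trans hcard

end Pool.Agent.Work.MP_09e03f_lc
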