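import Pool.Agent.Work.MP_09e03f_lc.Defs

/-!
# Rescaling the variables `Y`, renaming variables, and counting coefficients
-/

namespace Pool.Agent.Work.MP_09e03f_lc

open MvPolynomial Filter Topology

section subst

variable {κ ι : Type}

/-- Substituting polynomials of degree at most one does not raise the degree. -/
theorem totalDegree_bind₁_le {σ τ : Type} (f : σ → MvPolynomial τ ℝ)
    (hf : ∀ i, (f i).totalDegree ≤ 1) (P : MvPolynomial σ ℝ) :
    (bind₁ f P).totalDegree ≤ P.totalDegree := by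
  conv_lhs => rw [P.as_sum]
  rw [map_sum]
  refine totalDegree_finsetSum_le fun s hs => ?_
  rw [bind₁_monomial]
  refine (totalDegree_mul _ _).trans ?_
  rw [totalDegree_C, zero_add]
  refine (totalDegree_finset_prod _ _).trans ?_
  refine le_trans (Finset.sum_le_sum (g := fun i => s i) fun i _ => ?_) ?_
  · refine (totalDegree_pow _ _).trans ?_
    calc s i * (f i).totalDegree ≤ s i * 1 := Nat.mul_le_mul_left _ (hf i)
      _ = s i := mul_one _
  · exact le_totalDegree hs

/-- the substitution `Y ↦ l Y` -/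
noncomputable def scaleY (l : ι → ℝ) : κ ⊕ ι → MvPolynomial (κ ⊕ ι) ℝ :=
  Sum.elim (fun a => X (.inl a)) (fun b => C (l b) * X (.inr b))

/-- rescaled input -/
noncomputable def scP {ℓ : ℕ} (l : ι → ℝ) (P : Fin ℓ → MvPolynomial (κ ⊕ ι) ℝ) :
    Fin ℓ → MvPolynomial (κ ⊕ ι) ℝ := fun i => bind₁ (scaleY l) (P i)

theorem eval_scP {ℓ : ℕ} (l : ι → ℝ) (P : Fin ℓ → MvPolynomial (κ ⊕ ι) ℝ) (i : Fin ℓ)
    (x : κ → ℝ) (y : ι → ℝ) :
    eval (Sum.elim x y) (scP l P i) = eval (Sum.elim x (l * y)) (P i) := by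
  unfold scP
  show eval₂Hom (RingHom.id ℝ) _ (bind₁ _ _) = _
  rw [eval₂Hom_bind₁]
  show eval₂Hom _ _ _ = eval₂Hom _ _ _
  congr 2
  funext a
  rcases a with a | b
  · simp [scaleY]
  · simp [scaleY]

theorem degree_scP {ℓ : ℕ} (l : ι → ℝ) (P : Fin ℓ → MvPolynomial (κ ⊕ ι) ℝ) (i : Fin ℓ) :
    (scP l P i).totalDegree ≤ (P i).totalDegree := by
  refine totalDegree_bind₁_le _ (fun a => ?_) _
  rcases a with a | b
  · simp [scaleY]
  · simp only [scaleY, Sum.elim_inr]
    refine (totalDegree_mul _ _).trans ?_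
    rw [totalDegree_C, totalDegree_X]

theorem mem_basicSet_scP {ℓ : ℕ} (l : ι → ℝ) (P : Fin ℓ → MvPolynomial (κ ⊕ ι) ℝ)
    (x : κ → ℝ) (y : ι → ℝ) : (x, y) ∈ basicSet (scP l P) ↔ (x, l * y) ∈ basicSet P :=
  forall_congr' fun i => by rw [eval_scP]

theorem mem_proj_scP {ℓ : ℕ} (l : ι → ℝ) (P : Fin ℓ → MvPolynomial (κ ⊕ ι) ℝ) (y : ι → ℝ) :
    y ∈ proj (scP l P) ↔ l * y ∈ proj P :=
  exists_congr fun x => mem_basicSet_scP l P x y

theorem isCompact_scP {ℓ : ℕ} (l : ι → ℝ) (hl : ∀ i, l i ≠ 0)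
    (P : Fin ℓ → MvPolynomial (κ ⊕ ι) ℝ) (h : IsCompact (basicSet P)) :
    IsCompact (basicSet (scP l P)) := by
  have hc : Continuous (fun z : (κ → ℝ) × (ι → ℝ) => (z.1, l⁻¹ * z.2)) :=
    continuous_fst.prodMk (continuous_const.mul continuous_snd)
  have h1 : ∀ y : ι → ℝ, l * (l⁻¹ * y) = y := by
    intro y; funext i
    simp only [Pi.mul_apply, Pi.inv_apply]
    rw [← mul_assoc, mul_inv_cancel₀ (hl i), one_mul]
  have h2 : ∀ y : ι → ℝ, l⁻¹ * (l * y) = y := by
    intro y; funext i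
    simp only [Pi.mul_apply, Pi.inv_apply]
    rw [← mul_assoc, inv_mul_cancel₀ (hl i), one_mul]
  have : basicSet (scP l P) =
      (fun z : (κ → ℝ) × (ι → ℝ) => (z.1, l⁻¹ * z.2)) '' basicSet P := by
    ext ⟨x, y⟩
    rw [mem_basicSet_scP]
    constructor
    · intro h
      exact ⟨_, h, by simp only [h2]⟩
    · rintro ⟨z', h, hz⟩
      have e1 := congrArg Prod.fst hz
      have e2 := congrArg Prod.snd hz
      simp only at e1 e2
      rw [← e1, ← e2, h1]
      exact h
  rw [this]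
  exact h.image hc

end subst

section rename

variable {ι ι' κ κ' : Type}

/-- renaming of variables in a formula -/
noncomputable def QF.rename (e : ι → ι') : QF ι → QF ι'
  | .pos Qs => .pos (Qs.map (MvPolynomial.rename e))
  | .zero Qs => .zero (Qs.map (MvPolynomial.rename e))
  | .neg Qs => .neg (Qs.map (MvPolynomial.rename e))
  | .not φ => .not (φ.rename e)
  | .and φ ψ => .and (φ.rename e) (ψ.rename e)
  | .or φ ψ => .or (φ.rename e) (ψ.rename e)

theorem eval_prod_rename (e : ι → ι') (Qs : List (MvPolynomial ι ℝ)) (y : ι' → ℝ) :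
    eval y (Qs.map (MvPolynomial.rename e)).prod = eval (y ∘ e) Qs.prod := by
  induction Qs with
  | nil => simp
  | cons Q Qs ih => rw [List.map_cons, List.prod_cons, List.prod_cons, map_mul, map_mul, ih,
      eval_rename]

theorem QF.holds_rename (e : ι → ι') (φ : QF ι) (y : ι' → ℝ) :
    (φ.rename e).Holds y ↔ φ.Holds (y ∘ e) := by
  induction φ with
  | pos Q => rw [QF.rename, QF.Holds, QF.Holds, eval_prod_rename]
  | zero Q => rw [QF.rename, QF.Holds, QF.Holds, eval_prod_rename]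
  | neg Q => rw [QF.rename, QF.Holds, QF.Holds, eval_prod_rename]
  | not φ ih => rw [QF.rename, QF.Holds, QF.Holds, ih]
  | and φ ψ ih1 ih2 => rw [QF.rename, QF.Holds, QF.Holds, ih1, ih2]
  | or φ ψ ih1 ih2 => rw [QF.rename, QF.Holds, QF.Holds, ih1, ih2]

theorem QF.factors_rename (e : ι → ι') (φ : QF ι) :
    (φ.rename e).factors = φ.factors.map (MvPolynomial.rename e) := by
  induction φ with
  | pos Q => rfl
  | zero Q => rfl
  | neg Q => rfl
  | not φ ih => rw [QF.rename, QF.factors, QF.factors, ih]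
  | and φ ψ ih1 ih2 => rw [QF.rename, QF.factors, QF.factors, ih1, ih2, List.map_append]
  | or φ ψ ih1 ih2 => rw [QF.rename, QF.factors, QF.factors, ih1, ih2, List.map_append]

/-- renaming of the input -/
noncomputable def renP {ℓ : ℕ} (eκ : κ ≃ κ') (eι : ι ≃ ι') (P : Fin ℓ → MvPolynomial (κ ⊕ ι) ℝ) :
    Fin ℓ → MvPolynomial (κ' ⊕ ι') ℝ :=
  fun i => MvPolynomial.rename (Sum.map eκ eι) (P i)

theorem mem_basicSet_renP {ℓ : ℕ} (eκ : κ ≃ κ') (eι : ι ≃ ι')
    (P : Fin ℓ → MvPolynomial (κ ⊕ ι) ℝ) (z : (κ' → ℝ) × (ι' → ℝ)) :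
    z ∈ basicSet (renP eκ eι P) ↔ (z.1 ∘ eκ, z.2 ∘ eι) ∈ basicSet P := by
  unfold basicSet renP
  refine forall_congr' fun i => ?_
  rw [eval_rename]
  have : Sum.elim z.1 z.2 ∘ Sum.map eκ eι = Sum.elim (z.1 ∘ eκ) (z.2 ∘ eι) := by
    funext a; rcases a with a | a <;> rfl
  rw [this]

theorem mem_proj_renP {ℓ : ℕ} (eκ : κ ≃ κ') (eι : ι ≃ ι')
    (P : Fin ℓ → MvPolynomial (κ ⊕ ι) ℝ) (y : ι' → ℝ) :
    y ∈ proj (renP eκ eι P) ↔ y ∘ eι ∈ proj P := by
  constructor
  · rintro ⟨x, hx⟩
    have h := (mem_basicSet_renP eκ eι P (x, y)).1 hx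
    exact ⟨x ∘ eκ, h⟩
  · rintro ⟨x, hx⟩
    have h : ((x ∘ eκ.symm, y) : (κ' → ℝ) × (ι' → ℝ)) ∈ basicSet (renP eκ eι P) := by
      rw [mem_basicSet_renP]
      have e1 : (x ∘ eκ.symm) ∘ eκ = x := by
        funext a; simp
      simp only [e1]
      exact hx
    exact ⟨x ∘ eκ.symm, h⟩

theorem isCompact_renP {ℓ : ℕ} (eκ : κ ≃ κ') (eι : ι ≃ ι')
    (P : Fin ℓ → MvPolynomial (κ ⊕ ι) ℝ) (h : IsCompact (basicSet P)) :
    IsCompact (basicSet (renP eκ eι P)) := by
  have hc : Continuous (fun z : (κ → ℝ) × (ι → ℝ) => (z.1 ∘ eκ.symm, z.2 ∘ eι.symm)) := by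
    refine Continuous.prodMk ?_ ?_
    · exact continuous_pi fun i => (continuous_apply _).comp continuous_fst
    · exact continuous_pi fun i => (continuous_apply _).comp continuous_snd
  have : basicSet (renP eκ eι P) =
      (fun z : (κ → ℝ) × (ι → ℝ) => (z.1 ∘ eκ.symm, z.2 ∘ eι.symm)) '' basicSet P := by
    ext z
    rw [mem_basicSet_renP]
    constructor
    · intro h
      refine ⟨_, h, ?_⟩
      simp [Function.comp_assoc]
    · rintro ⟨z', h, rfl⟩
      simpa [Function.comp_assoc] using h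
  rw [this]
  exact h.image hc

end rename

section count

/-- A polynomial of degree at most two in a finite set of variables has few monomials. -/
theorem card_support_le {σ : Type} [Fintype σ] (P : MvPolynomial σ ℝ) (h : P.totalDegree ≤ 2) :
    P.support.card ≤ (Fintype.card σ + 1) ^ 2 := by
  classical
  let g : Option σ → (σ →₀ ℕ) := fun o => o.elim 0 (fun i => Finsupp.single i 1)
  have hsub : P.support ⊆ (Finset.univ : Finset (Option σ × Option σ)).image
      (fun q => g q.1 + g q.2) := by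
    intro s hs
    have hdeg : (s.sum fun _ e => e) ≤ 2 := (le_totalDegree hs).trans h
    have hdec : ∀ t : σ →₀ ℕ, t ≠ 0 → ∃ i, ∃ t' : σ →₀ ℕ, t = Finsupp.single i 1 + t' ∧
        (t.sum fun _ e => e) = (t'.sum fun _ e => e) + 1 := by
      intro t ht
      obtain ⟨i, hi⟩ := Finsupp.ne_iff.1 ht
      have hi' : Finsupp.single i 1 ≤ t := by
        rw [Finsupp.single_le_iff]
        have : t i ≠ 0 := by simpa using hi
        omega
      refine ⟨i, t - Finsupp.single i 1, (add_tsub_cancel_of_le hi').symm, ?_⟩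
      have h1 : t = Finsupp.single i 1 + (t - Finsupp.single i 1) :=
        (add_tsub_cancel_of_le hi').symm
      conv_lhs => rw [h1]
      rw [Finsupp.sum_add_index' (fun _ => rfl) (fun _ _ _ => rfl),
        Finsupp.sum_single_index rfl, add_comm]
    rw [Finset.mem_image]
    by_cases h0 : s = 0
    · exact ⟨(none, none), Finset.mem_univ _, by simp [g, h0]⟩
    · obtain ⟨i, t, rfl, ht2⟩ := hdec s h0
      by_cases h1 : t = 0
      · exact ⟨(some i, none), Finset.mem_univ _, by simp [g, h1]⟩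
      · obtain ⟨j, t', rfl, ht4⟩ := hdec t h1
        have h5 : (t'.sum fun _ e => e) = 0 := by omega
        have h6 : t' = 0 := by
          ext a
          by_contra hne
          have hmem : a ∈ t'.support := Finsupp.mem_support_iff.2 hne
          have := Finset.sum_eq_zero_iff.1 h5 a hmem
          exact hne this
        exact ⟨(some i, some j), Finset.mem_univ _, by simp [g, h6]⟩
  calc P.support.card ≤ _ := Finset.card_le_card hsub
    _ ≤ (Finset.univ : Finset (Option σ × Option σ)).card := Finset.card_image_le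
    _ = (Fintype.card σ + 1) ^ 2 := by
      rw [Finset.card_univ, Fintype.card_prod, Fintype.card_option, sq]

end count

end Pool.Agent.Work.MP_09e03f_lc
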