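import Pool.Agent.Work.MP_09e03f_lc.Construct
import Pool.Agent.Work.MP_09e03f_lc.Generic
import Pool.Agent.Work.MP_09e03f_lc.Subst

/-!
# The lower bound
-/

namespace Pool.Agent.Work.MP_09e03f_lc

open MvPolynomial Filter Topology

variable {n : ℕ}

/-- Local constancy of formulas away from the zero sets of its nonzero polynomials. -/
theorem eventually_holds {ι : Type} [Finite ι] (φ : QF ι) (y : ι → ℝ)
    (h : ∀ Q ∈ φ.factors, Q ≠ 0 → eval y Q ≠ 0) : ∀ᶠ y' in 𝓝 y, (φ.Holds y' ↔ φ.Holds y) := by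
  have hsign : ∀ Q : MvPolynomial ι ℝ, (Q ≠ 0 → eval y Q ≠ 0) →
      ∀ᶠ y' in 𝓝 y, SignType.sign (eval y' Q) = SignType.sign (eval y Q) := by
    intro Q hQ
    by_cases h0 : Q = 0
    · subst h0; simp
    · have hc : Tendsto (fun y' => eval y' Q) (𝓝 y) (𝓝 (eval y Q)) :=
        (MvPolynomial.continuous_eval Q).tendsto y
      rcases lt_or_gt_of_ne (hQ h0) with hlt | hgt
      · filter_upwards [hc.eventually_lt_const hlt] with y' hy'
        rw [sign_neg hy', sign_neg hlt]
      · filter_upwards [hc.eventually_const_lt hgt] with y' hy'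
        rw [sign_pos hy', sign_pos hgt]
  have hprod : ∀ Qs : List (MvPolynomial ι ℝ), (∀ Q ∈ Qs, Q ≠ 0 → eval y Q ≠ 0) →
      ∀ᶠ y' in 𝓝 y, SignType.sign (eval y' Qs.prod) = SignType.sign (eval y Qs.prod) := by
    intro Qs
    induction Qs with
    | nil => intro _; simp
    | cons Q Qs ih =>
      intro hQs
      filter_upwards [hsign Q (hQs Q (by simp)), ih (fun Q' hQ' => hQs Q' (by simp [hQ']))]
        with y' h1 h2
      rw [List.prod_cons, (eval y').map_mul, (eval y).map_mul, sign_mul, sign_mul, h1, h2]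
  induction φ with
  | pos Qs =>
    filter_upwards [hprod Qs h] with y' hy'
    rw [QF.Holds, QF.Holds, ← sign_eq_one_iff, ← sign_eq_one_iff, hy']
  | zero Qs =>
    filter_upwards [hprod Qs h] with y' hy'
    rw [QF.Holds, QF.Holds, ← sign_eq_zero_iff, hy', sign_eq_zero_iff]
  | neg Qs =>
    filter_upwards [hprod Qs h] with y' hy'
    rw [QF.Holds, QF.Holds, ← sign_eq_neg_one_iff, ← sign_eq_neg_one_iff, hy']
  | not φ ih =>
    filter_upwards [ih h] with y' hy'
    rw [QF.Holds, QF.Holds, hy']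
  | and φ ψ ih1 ih2 =>
    filter_upwards [ih1 (fun Q hQ => h Q (by simp [QF.factors, hQ])),
      ih2 (fun Q hQ => h Q (by simp [QF.factors, hQ]))] with y' h1 h2
    rw [QF.Holds, QF.Holds, h1, h2]
  | or φ ψ ih1 ih2 =>
    filter_upwards [ih1 (fun Q hQ => h Q (by simp [QF.factors, hQ])),
      ih2 (fun Q hQ => h Q (by simp [QF.factors, hQ]))] with y' h1 h2
    rw [QF.Holds, QF.Holds, h1, h2]

/-- At a point of the described set that is a limit of points outside, some nonzero polynomial of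
the description vanishes. -/
theorem exists_factor_vanishing {ι : Type} [Finite ι] (φ : QF ι) (A : Set (ι → ℝ))
    (hφ : ∀ y, φ.Holds y ↔ y ∈ A) (y₀ : ι → ℝ) (h₀ : y₀ ∈ A) (h₁ : ∃ᶠ y in 𝓝 y₀, y ∉ A) :
    ∃ Q ∈ φ.factors, Q ≠ 0 ∧ eval y₀ Q = 0 := by
  by_contra hcon
  push Not at hcon
  have hev := eventually_holds φ y₀ hcon
  obtain ⟨y, hy1, hy2⟩ := (h₁.and_eventually hev).exists
  exact hy1 ((hφ y).1 (hy2.2 ((hφ y₀).2 h₀)))

/-- In a finite cover of a nonempty open set by zero sets of continuous functions one of the zero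
sets contains a nonempty open set. -/
theorem exists_open_subset {X α : Type*} [TopologicalSpace X] (s : Finset α) (f : α → X → ℝ) :
    ∀ (U : Set X), IsOpen U → U.Nonempty → (∀ a ∈ s, ContinuousOn (f a) U) →
      (∀ x ∈ U, ∃ a ∈ s, f a x = 0) →
      ∃ a ∈ s, ∃ V ⊆ U, IsOpen V ∧ V.Nonempty ∧ ∀ x ∈ V, f a x = 0 := by
  classical
  induction s using Finset.induction_on with
  | empty =>
    intro U _ hne _ hcov
    obtain ⟨x, hx⟩ := hne
    obtain ⟨a, ha, _⟩ := hcov x hx
    exact absurd ha (Finset.notMem_empty a)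
  | insert b s hb ih =>
    intro U hU hne hf hcov
    by_cases hall : ∀ x ∈ U, f b x = 0
    · exact ⟨b, Finset.mem_insert_self _ _, U, subset_rfl, hU, hne, hall⟩
    · push Not at hall
      obtain ⟨x, hx, hx0⟩ := hall
      have hU' : IsOpen (U ∩ f b ⁻¹' {0}ᶜ) :=
        (hf b (Finset.mem_insert_self _ _)).isOpen_inter_preimage hU isClosed_singleton.isOpen_compl
      obtain ⟨a, ha, V, hVU, hV, hVne, hV0⟩ := ih (U ∩ f b ⁻¹' {0}ᶜ) hU' ⟨x, hx, hx0⟩
        (fun a ha => (hf a (Finset.mem_insert_of_mem ha)).mono Set.inter_subset_left)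
        (fun y hy => by
          obtain ⟨a, ha, ha0⟩ := hcov y hy.1
          rcases Finset.mem_insert.1 ha with rfl | ha'
          · exact absurd ha0 hy.2
          · exact ⟨a, ha', ha0⟩)
      exact ⟨a, Finset.mem_insert_of_mem ha, V, hVU.trans Set.inter_subset_left, hV, hVne, hV0⟩

theorem continuous_pt {α : Type*} [TopologicalSpace α] {w : α → Fin n → ℝ} {u v : α → ℝ}
    (hw : Continuous w) (hu : Continuous u) (hv : Continuous v) :
    Continuous fun a => pt (w a) (u a) (v a) := by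
  refine continuous_pi fun i => ?_
  rcases i with j | i
  · exact (continuous_apply j).comp hw
  · fin_cases i
    · exact hu
    · exact hv

/-- parametrisation of the boundary points -/
noncomputable def param (z : ℝ × (Fin n → ℝ)) : Yi n → ℝ :=
  pt (ww z.1 z.2) (√(tt z.1 z.2)) (vv z.1 z.2)

theorem param_mk (r : ℝ) (x : Fin n → ℝ) : param (r, x) = pt (ww r x) (√(tt r x)) (vv r x) := rfl

/-- the domain of parameters -/
def Dom (n : ℕ) : Set (ℝ × (Fin n → ℝ)) := {z | 0 < z.1 ∧ 0 < tt z.1 z.2}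

theorem continuousOn_A0 : ContinuousOn (fun z : ℝ × (Fin n → ℝ) => A0 n z.1) {z | 0 < z.1} := by
  unfold A0
  refine continuousOn_finsetSum _ fun i _ => ?_
  refine ContinuousOn.pow (ContinuousOn.inv₀ ?_ ?_) 2
  · exact (continuous_fst.add continuous_const).continuousOn
  · intro z hz
    exact (add_pos (show 0 < z.1 from hz) (mu_pos i)).ne'

theorem continuousOn_C0 : ContinuousOn (fun z : ℝ × (Fin n → ℝ) => C0 n z.1) {z | 0 < z.1} := by
  unfold C0
  refine continuousOn_finsetSum _ fun i _ => ?_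
  refine ContinuousOn.inv₀ ?_ ?_
  · exact (continuous_fst.add continuous_const).continuousOn
  · intro z hz
    exact (add_pos (show 0 < z.1 from hz) (mu_pos i)).ne'

theorem continuous_coord (j : Fin n) : Continuous (fun z : ℝ × (Fin n → ℝ) => z.2 j) :=
  (continuous_apply j).comp continuous_snd

theorem continuousOn_vv :
    ContinuousOn (fun z : ℝ × (Fin n → ℝ) => vv z.1 z.2) {z | 0 < z.1} := by
  unfold vv
  refine ContinuousOn.add ?_ continuousOn_A0
  exact (continuous_finsetSum _ fun j _ => (continuous_coord j).pow 2).continuousOn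

theorem continuous_ww (j : Fin n) : Continuous (fun z : ℝ × (Fin n → ℝ) => ww z.1 z.2 j) := by
  unfold ww
  exact (continuous_fst.add continuous_const).mul (continuous_coord j)

theorem continuousOn_tt :
    ContinuousOn (fun z : ℝ × (Fin n → ℝ) => tt z.1 z.2) {z | 0 < z.1} := by
  unfold tt
  refine ((((continuous_fst.continuousOn.mul continuousOn_vv).add ?_).add
    continuousOn_C0).sub (continuousOn_vv.pow 2)).sub ?_
  · exact (continuous_finsetSum _ fun j _ =>
      ((continuous_coord j).pow 2).mul (continuous_fst.add continuous_const)).continuousOn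
  · exact (continuous_finsetSum _ fun j _ => (continuous_ww j).pow 2).continuousOn

theorem isOpen_Dom : IsOpen (Dom n) := by
  have h1 : IsOpen {z : ℝ × (Fin n → ℝ) | 0 < z.1} := isOpen_lt continuous_const continuous_fst
  exact continuousOn_tt.isOpen_inter_preimage h1 isOpen_Ioi

theorem continuousOn_param : ContinuousOn (param (n := n)) (Dom n) := by
  have hsub : Dom n ⊆ {z | 0 < z.1} := fun z hz => hz.1
  rw [continuousOn_pi]
  intro i
  rcases i with j | i
  · exact (continuous_ww j).continuousOn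
  · fin_cases i
    · exact Real.continuous_sqrt.comp_continuousOn (continuousOn_tt.mono hsub)
    · exact continuousOn_vv.mono hsub

theorem nonempty_Dom (n : ℕ) : (Dom n).Nonempty := by
  let r₀ : ℝ := n + 1
  have hr₀ : 0 < r₀ := by positivity
  refine ⟨(r₀, 0), hr₀, ?_⟩
  show 0 < tt r₀ (0 : Fin n → ℝ)
  have hv : vv r₀ (0 : Fin n → ℝ) = A0 n r₀ := by unfold vv; simp
  have hw : ∑ j, ww r₀ (0 : Fin n → ℝ) j ^ 2 = 0 := by unfold ww; simp
  have hs : ∑ j, (0 : Fin n → ℝ) j ^ 2 * (r₀ + algebraMap ℝ ℝ (aj n j)) = 0 := by simp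
  rw [tt, hv, hw, hs]
  have hC : 0 < C0 n r₀ := by
    unfold C0
    refine Finset.sum_pos (fun i _ => ?_) ⟨0, Finset.mem_univ _⟩
    exact inv_pos.2 (add_pos hr₀ (mu_pos i))
  have hA0 : 0 ≤ A0 n r₀ := by
    unfold A0
    exact Finset.sum_nonneg fun _ _ => sq_nonneg _
  have hA1 : A0 n r₀ ≤ r₀ := by
    calc A0 n r₀ ≤ ∑ i : Fin (n + 1), (1 : ℝ) := by
          unfold A0
          refine Finset.sum_le_sum fun i _ => ?_
          show ((r₀ + mu i)⁻¹) ^ 2 ≤ 1
          have h1 : 1 ≤ r₀ + mu i := by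
            have h2 := mu_pos i
            have h3 : (0 : ℝ) ≤ n := Nat.cast_nonneg n
            show (1 : ℝ) ≤ (n : ℝ) + 1 + mu i
            linarith
          have h2 : (r₀ + mu i)⁻¹ ≤ 1 := inv_le_one_of_one_le₀ h1
          have h3 : 0 ≤ (r₀ + mu i)⁻¹ := inv_nonneg.2 (by linarith)
          nlinarith
      _ = r₀ := by simp [r₀]
  nlinarith

/-- The parametrised points are boundary points. -/
theorem frequently_not_mem {ℓ : ℕ} (hℓ : 2 ≤ ℓ) (l l' : Yi n → ℝ) (hl : ∀ y, l' * (l * y) = y)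
    (z : ℝ × (Fin n → ℝ)) (hz : z ∈ Dom n) :
    ∃ᶠ y in 𝓝 (l * param z), y ∉ {y | l' * y ∈ proj (PP n ℓ)} := by
  obtain ⟨hr, ht⟩ := hz
  have hc : Continuous fun ε : ℝ => l * pt (ww z.1 z.2) (√(tt z.1 z.2) + ε) (vv z.1 z.2) :=
    continuous_const.mul (continuous_pt continuous_const (continuous_const.add continuous_id)
      continuous_const)
  have ht0 : Tendsto (fun ε : ℝ => l * pt (ww z.1 z.2) (√(tt z.1 z.2) + ε) (vv z.1 z.2)) (𝓝[>] 0)
      (𝓝 (l * param z)) := by
    have := (hc.tendsto 0).mono_left (nhdsWithin_le_nhds (s := Set.Ioi 0))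
    simpa [param] using this
  refine ht0.frequently (Eventually.frequently ?_)
  filter_upwards [self_mem_nhdsWithin] with ε hε hcon
  have hε' : 0 < ε := hε
  have hcon' : l' * (l * pt (ww z.1 z.2) (√(tt z.1 z.2) + ε) (vv z.1 z.2)) ∈ proj (PP n ℓ) := hcon
  rw [hl] at hcon'
  refine not_mem_proj_of hℓ z.1 hr z.2 (√(tt z.1 z.2) + ε) ?_ hcon'
  have h4 := Real.sqrt_nonneg (tt z.1 z.2)
  have h5 := Real.sq_sqrt ht.le
  nlinarith

theorem box_mem (V : Set (ℝ × (Fin n → ℝ))) (z₀ : ℝ × (Fin n → ℝ)) (δ : ℝ) (hδ : 0 < δ)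
    (hball : Metric.ball z₀ δ ⊆ V) :
    ∀ r ∈ Set.Ioo (z₀.1 - δ) (z₀.1 + δ), ∀ x : Fin n → ℝ,
      (∀ j, x j ∈ Set.Ioo (z₀.2 j - δ) (z₀.2 j + δ)) → (r, x) ∈ V := by
  intro r hr x hx
  apply hball
  rw [Metric.mem_ball, Prod.dist_eq, max_lt_iff]
  constructor
  · rw [Real.dist_eq, abs_lt]
    constructor
    · have := hr.1; simp only; linarith
    · have := hr.2; simp only; linarith
  · rw [dist_pi_lt_iff hδ]
    intro j
    rw [Real.dist_eq, abs_lt]
    have := hx j
    constructor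
    · have := this.1; simp only; linarith
    · have := this.2; simp only; linarith

/-- Nonzero polynomials that vanish on a piece of the boundary have many monomials. -/
theorem card_support_ge (V : Set (ℝ × (Fin n → ℝ))) (hV : IsOpen V) (hVne : V.Nonempty)
    (hVD : V ⊆ Dom n) (Q : MvPolynomial (Yi n) ℝ) (hQ : Q ≠ 0)
    (h : ∀ z ∈ V, eval (param z) Q = 0) : 2 ^ n ≤ Q.support.card := by
  obtain ⟨z₀, hz₀⟩ := hVne
  obtain ⟨δ, hδ, hball⟩ := Metric.isOpen_iff.1 hV z₀ hz₀
  have hmem := box_mem V z₀ δ hδ hball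
  generalize hI : Set.Ioo (z₀.1 - δ) (z₀.1 + δ) = I at hmem
  have hJ : ∃ J : Fin n → Set ℝ, (∀ j, (J j).Infinite) ∧ (∀ j, z₀.2 j ∈ J j) ∧
      ∀ r ∈ I, ∀ x : Fin n → ℝ, (∀ j, x j ∈ J j) → (r, x) ∈ V :=
    ⟨fun j => Set.Ioo (z₀.2 j - δ) (z₀.2 j + δ), fun j => Set.Ioo_infinite (by linarith),
      fun j => ⟨by linarith, by linarith⟩, hmem⟩
  obtain ⟨J, hJ1, hJ0, hJV⟩ := hJ
  have hI1 : I.Infinite := by rw [← hI]; exact Set.Ioo_infinite (by linarith)
  have hvan1 : ∀ r ∈ I, ∀ x : Fin n → ℝ, (∀ j, x j ∈ J j) →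
      ∃ Q' ∈ ({Q} : Finset (MvPolynomial (Yi n) ℝ)),
        eval (pt (ww r x) (√(tt r x)) (vv r x)) Q' = 0 := by
    intro r hr x hx
    refine ⟨Q, Finset.mem_singleton_self _, ?_⟩
    have h1 := h (r, x) (hJV r hr x hx)
    rw [param_mk] at h1
    exact h1
  obtain ⟨Q', hQ', hvan⟩ := exists_vanishing (m := n) {Q} I J hI1 hJ1
    (fun r hr x hx => (hVD (hJV r hr x hx)).2.le) (fun r hr => (hVD (hJV r hr z₀.2 hJ0)).1) hvan1
  have hQQ : Q' = Q := Finset.mem_singleton.1 hQ'
  rw [hQQ] at hvan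
  exact key_bound Q hQ hvan

/-- **Lower bound for descriptions, before renaming the variables.** -/
theorem main_bound {ℓ : ℕ} (hℓ : 2 ≤ ℓ) (n : ℕ) : ∃ l : Yi n → ℝ, (∀ i, l i ≠ 0) ∧
    ∀ φ : QF (Yi n), (∀ y, φ.Holds y ↔ y ∈ proj (scP l (PP n ℓ))) →
      ∃ Q ∈ φ.factors, ∃ T : Finset ℝ, 2 ^ n ≤ T.card ∧ ∀ a ∈ T, a ≠ 0 ∧ ∃ d, a = Q.coeff d := by
  classical
  obtain ⟨D, hDc, hDd⟩ := TopologicalSpace.exists_countable_dense (ℝ × (Fin n → ℝ))
  set H : Set (Yi n → ℝ) := param '' (D ∩ Dom n) with hH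
  have hHc : H.Countable := (hDc.mono Set.inter_subset_left).image _
  obtain ⟨l, hlpos, hlgen⟩ := exists_generic H hHc
  have hl : ∀ y : Yi n → ℝ, l⁻¹ * (l * y) = y := by
    intro y; funext i
    simp only [Pi.mul_apply, Pi.inv_apply]
    rw [← mul_assoc, inv_mul_cancel₀ (hlpos i).ne', one_mul]
  refine ⟨l⁻¹, fun i => inv_ne_zero (hlpos i).ne', fun φ hφ => ?_⟩
  have hφ' : ∀ y, φ.Holds y ↔ y ∈ {y | l⁻¹ * y ∈ proj (PP n ℓ)} := fun y => by
    rw [hφ, mem_proj_scP]; rfl
  obtain ⟨Q, hQ, V, hVD, hV, hVne, hV0⟩ := exists_open_subset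
    (φ.factors.toFinset.filter (· ≠ 0)) (fun Q z => eval (l * param z) Q) (Dom n) isOpen_Dom
    (nonempty_Dom n)
    (fun Q _ => (MvPolynomial.continuous_eval Q).comp_continuousOn
      (continuousOn_const.mul continuousOn_param))
    (fun z hz => by
      obtain ⟨Q, h1, h2, h3⟩ := exists_factor_vanishing φ _ hφ' (l * param z)
        (by
          show l⁻¹ * (l * param z) ∈ proj (PP n ℓ)
          rw [hl]
          exact mem_proj_of hℓ z.1 hz.1 z.2 hz.2.le)
        (frequently_not_mem hℓ l l⁻¹ hl z hz)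
      exact ⟨Q, by simp [h1, h2], h3⟩)
  obtain ⟨hQ1, hQ2⟩ := Finset.mem_filter.1 hQ
  have hH' : param '' (D ∩ V) ⊆ H := Set.image_mono (Set.inter_subset_inter_right _ hVD)
  have hcard := card_coeffs_ge (K := 2 ^ n) H (param '' (D ∩ V)) hH' l hlgen
    (by
      intro Q' hQ'0 hQ'
      refine card_support_ge V hV hVne hVD Q' hQ'0 ?_
      intro z hz
      have hcont : ContinuousOn (fun z => eval (param z) Q') V :=
        (MvPolynomial.continuous_eval Q').comp_continuousOn (continuousOn_param.mono hVD)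
      -- density
      by_contra hne
      have hopen : IsOpen (V ∩ (fun z => eval (param z) Q') ⁻¹' {0}ᶜ) :=
        hcont.isOpen_inter_preimage hV isClosed_singleton.isOpen_compl
      obtain ⟨z', hz'1, hz'2⟩ := hDd.inter_open_nonempty _ hopen ⟨z, hz, hne⟩
      exact hz'1.2 (hQ' _ ⟨z', ⟨hz'2, hz'1.1⟩, rfl⟩))
    Q hQ2 (by
      rintro y ⟨z, hz, rfl⟩
      exact hV0 z hz.2)
  refine ⟨Q, by simpa using hQ1, _, hcard, fun a ha => ?_⟩
  obtain ⟨d, hd, rfl⟩ := Finset.mem_image.1 ha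
  exact ⟨mem_support_iff.1 hd, d, rfl⟩

/-- the set of nonzero coefficients of the input, for `P i ∈ {p, q}` -/
theorem exists_inputs {ℓ k m : ℕ} (P : Fin ℓ → MvPolynomial (Fin k ⊕ Fin m) ℝ)
    (p q : MvPolynomial (Fin k ⊕ Fin m) ℝ) (hp : p.totalDegree ≤ 2) (hq : q.totalDegree ≤ 2)
    (h : ∀ i, P i = p ∨ P i = q) : ∃ I : Finset ℝ, I.card ≤ 2 * (k + m + 1) ^ 2 ∧
      ∀ a ∈ inputs P, a ≠ 0 → a ∈ I := by
  classical
  refine ⟨p.support.image p.coeff ∪ q.support.image q.coeff, ?_, ?_⟩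
  · have h1 : (p.support.image p.coeff).card ≤ (k + m + 1) ^ 2 := by
      refine Finset.card_image_le.trans ((card_support_le p hp).trans ?_)
      simp
    have h2 : (q.support.image q.coeff).card ≤ (k + m + 1) ^ 2 := by
      refine Finset.card_image_le.trans ((card_support_le q hq).trans ?_)
      simp
    calc _ ≤ _ := Finset.card_union_le _ _
      _ ≤ (k + m + 1) ^ 2 + (k + m + 1) ^ 2 := add_le_add h1 h2
      _ = _ := by ring
  · rintro a ⟨i, d, rfl⟩ ha
    rcases h i with hi | hi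
    · rw [hi] at ha ⊢
      exact Finset.mem_union_left _ (Finset.mem_image.2 ⟨d, mem_support_iff.2 ha, rfl⟩)
    · rw [hi] at ha ⊢
      exact Finset.mem_union_right _ (Finset.mem_image.2 ⟨d, mem_support_iff.2 ha, rfl⟩)

/-- **Main theorem.** -/
theorem main (ℓ : ℕ) (hℓ : 2 ≤ ℓ) (n : ℕ) :
    ∃ P : Fin ℓ → MvPolynomial (Fin (2 * n + 1) ⊕ Fin (n + 2)) ℝ, Admissible P ∧
      ∀ φ : QF (Fin (n + 2)), Describes φ P → ∀ (C : Finset ℝ) (L : List ℝ),
        IsComputation (↑C ∪ inputs P) L →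
        (∀ Q ∈ φ.factors, ∀ d, Q.coeff d ∈ ↑C ∪ inputs P ∪ {a | a ∈ L}) →
        2 ^ n ≤ L.length + C.card + 2 * (3 * n + 4) ^ 2 := by
  classical
  let eκ : Xi n ≃ Fin (2 * n + 1) := finSumFinEquiv.trans (finCongr (by omega))
  let eι : Yi n ≃ Fin (n + 2) := finSumFinEquiv
  obtain ⟨l, hl, hmain⟩ := main_bound hℓ n
  have hdeg : ∀ i, (renP eκ eι (scP l (PP n ℓ)) i).totalDegree ≤ 2 := by
    intro i
    unfold renP
    refine (totalDegree_rename_le _ _).trans ((degree_scP l _ i).trans ?_)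
    rw [PP]
    split_ifs
    · exact degree_P1
    · exact degree_P2
  refine ⟨renP eκ eι (scP l (PP n ℓ)), ?_, ?_⟩
  · have hcomp := isCompact_renP eκ eι (scP l (PP n ℓ))
      (isCompact_scP l hl _ (isCompact_basicSet hℓ))
    exact ⟨hdeg, hcomp.isClosed, hcomp.isBounded⟩
  · intro φ hφ C L _ hL
    have h1 : ∀ y, (φ.rename eι.symm).Holds y ↔ y ∈ proj (scP l (PP n ℓ)) := by
      intro y
      rw [QF.holds_rename, hφ, mem_proj_renP]
      simp [Function.comp_assoc]
    obtain ⟨Q, hQ, T, hT, hTc⟩ := hmain _ h1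
    rw [QF.factors_rename, List.mem_map] at hQ
    obtain ⟨Q', hQ', rfl⟩ := hQ
    obtain ⟨I, hI, hIin⟩ := exists_inputs (renP eκ eι (scP l (PP n ℓ)))
      (renP eκ eι (scP l (PP n ℓ)) ⟨0, by omega⟩) (renP eκ eι (scP l (PP n ℓ)) ⟨1, by omega⟩)
      (hdeg _) (hdeg _) (by
        intro i
        by_cases hi : (i : ℕ) = 0
        · left
          unfold renP scP PP
          simp [hi]
        · right
          unfold renP scP PP
          simp [hi])
    have hsub : T ⊆ L.toFinset ∪ C ∪ I := by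
      intro a ha
      obtain ⟨ha0, d, hd⟩ := hTc a ha
      have hex : ∃ d', a = Q'.coeff d' := by
        by_cases hr : ∃ u : Fin (n + 2) →₀ ℕ, u.mapDomain eι.symm = d
        · obtain ⟨u, rfl⟩ := hr
          rw [coeff_rename_mapDomain _ eι.symm.injective] at hd
          exact ⟨u, hd⟩
        · exfalso
          apply ha0
          rw [hd]
          apply coeff_rename_eq_zero
          intro u hu
          exact absurd ⟨u, hu⟩ hr
      obtain ⟨d', rfl⟩ := hex
      rcases hL Q' hQ' d' with (h2 | h2) | h2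
      · exact Finset.mem_union_left _ (Finset.mem_union_right _ h2)
      · exact Finset.mem_union_right _ (hIin _ h2 ha0)
      · exact Finset.mem_union_left _ (Finset.mem_union_left _ (by simpa using h2))
    calc 2 ^ n ≤ T.card := hT
      _ ≤ (L.toFinset ∪ C ∪ I).card := Finset.card_le_card hsub
      _ ≤ L.toFinset.card + C.card + I.card :=
        (Finset.card_union_le _ _).trans (Nat.add_le_add_right (Finset.card_union_le _ _) _)
      _ ≤ L.length + C.card + 2 * (3 * n + 4) ^ 2 := by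
        have h3 := L.toFinset_card_le
        have h4 : (2 * n + 1) + (n + 2) + 1 = 3 * n + 4 := by ring
        rw [h4] at hI
        omega

end Pool.Agent.Work.MP_09e03f_lc
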