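import Mathlib

/-!
# Polynomials vanishing on many hyperplanes have many monomials
-/

namespace Pool.Agent.Work.MP_09e03f_lc

open MvPolynomial

/-- Support of the coefficients of `finSuccEquiv` embed in the support. -/
theorem card_support_add_le {K : Type*} [Field K] {m : ℕ} (p : MvPolynomial (Fin (m + 1)) K)
    {e₁ e₂ : ℕ} (he : e₁ ≠ e₂) :
    ((finSuccEquiv K m p).coeff e₁).support.card + ((finSuccEquiv K m p).coeff e₂).support.card ≤
      p.support.card := by
  classical
  let f : ℕ → (Fin m →₀ ℕ) → (Fin (m + 1) →₀ ℕ) := fun e s => s.cons e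
  have hinj : ∀ e, Function.Injective (f e) := fun e s t h => by
    have := congrArg Finsupp.tail h
    simpa [f] using this
  have hsub : ∀ e, ((finSuccEquiv K m p).coeff e).support.image (f e) ⊆ p.support := by
    intro e s hs
    obtain ⟨t, ht, rfl⟩ := Finset.mem_image.1 hs
    exact mem_support_coeff_finSuccEquiv.1 ht
  have hdisj : Disjoint (((finSuccEquiv K m p).coeff e₁).support.image (f e₁))
      (((finSuccEquiv K m p).coeff e₂).support.image (f e₂)) := by
    rw [Finset.disjoint_left]
    intro s hs ht
    obtain ⟨t, _, rfl⟩ := Finset.mem_image.1 hs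
    obtain ⟨t', _, h⟩ := Finset.mem_image.1 ht
    apply he
    have := congrArg (fun s : Fin (m + 1) →₀ ℕ => s 0) h
    simpa [f] using this.symm
  rw [← Finset.card_image_of_injective _ (hinj e₁), ← Finset.card_image_of_injective _ (hinj e₂),
    ← Finset.card_union_of_disjoint hdisj]
  exact Finset.card_le_card (Finset.union_subset (hsub e₁) (hsub e₂))

/-- A nonzero polynomial in `m` variables vanishing on `m` hyperplanes `w j = θ j`, `θ j ≠ 0`,
has at least `2 ^ m` monomials. -/
theorem two_pow_le_card_support {K : Type*} [Field K] [Infinite K] {m : ℕ} :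
    ∀ (p : MvPolynomial (Fin m) K), p ≠ 0 → ∀ θ : Fin m → K, (∀ j, θ j ≠ 0) →
      (∀ j, ∀ w : Fin m → K, w j = θ j → eval w p = 0) → 2 ^ m ≤ p.support.card := by
  induction m with
  | zero =>
    intro p hp θ _ _
    rw [pow_zero]
    exact Finset.card_pos.2 (Finset.nonempty_of_ne_empty (by simpa using hp))
  | succ m ih =>
    intro p hp θ hθ h
    set q := finSuccEquiv K m p with hq
    have hq0 : q ≠ 0 := by
      intro h0
      apply hp
      apply (finSuccEquiv K m).injective
      rw [← hq, h0, map_zero]
    -- every nonzero coefficient has many monomials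
    have hcoef : ∀ e, q.coeff e ≠ 0 → 2 ^ m ≤ (q.coeff e).support.card := by
      intro e he
      apply ih (q.coeff e) he (fun j => θ j.succ) (fun j => hθ _)
      intro j w hw
      have hz : Polynomial.map (eval w) q = 0 := by
        apply Polynomial.funext
        intro y
        rw [hq, ← eval_eq_eval_mv_eval', Polynomial.eval_zero]
        apply h j.succ
        simpa using hw
      have := congrArg (fun r => Polynomial.coeff r e) hz
      simpa using this
    -- there are two nonzero coefficients
    obtain ⟨e₁, he₁⟩ : ∃ e, q.coeff e ≠ 0 := by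
      by_contra hcon
      push Not at hcon
      exact hq0 (Polynomial.ext (by simpa using hcon))
    obtain ⟨e₂, hne, he₂⟩ : ∃ e, e ≠ e₁ ∧ q.coeff e ≠ 0 := by
      by_contra hcon
      push Not at hcon
      have hqm : q = Polynomial.monomial e₁ (q.coeff e₁) := by
        ext1 e
        rw [Polynomial.coeff_monomial]
        split_ifs with h'
        · rw [h']
        · exact hcon e (Ne.symm h')
      apply he₁
      apply MvPolynomial.funext
      intro w
      have h1 := h 0 (Fin.cons (θ 0) w) (by simp)
      rw [eval_eq_eval_mv_eval', ← hq, hqm] at h1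
      simp only [Polynomial.map_monomial, Polynomial.eval_monomial] at h1
      rw [map_zero]
      rcases mul_eq_zero.1 h1 with h2 | h2
      · exact h2
      · exact absurd h2 (pow_ne_zero _ (hθ 0))
    calc 2 ^ (m + 1) = 2 ^ m + 2 ^ m := by ring
      _ ≤ (q.coeff e₁).support.card + (q.coeff e₂).support.card :=
        add_le_add (hcoef e₁ he₁) (hcoef e₂ he₂)
      _ ≤ p.support.card := card_support_add_le p (Ne.symm hne)

/-- The same with vanishing only at points whose other coordinates lie in an infinite set. -/
theorem two_pow_le_card_support' {K : Type*} [Field K] [Infinite K] {m : ℕ}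
    (p : MvPolynomial (Fin m) K) (hp : p ≠ 0) (s : Set K) (hs : s.Infinite)
    (θ : Fin m → K) (hθ : ∀ j, θ j ≠ 0)
    (h : ∀ j, ∀ w : Fin m → K, (∀ l, l ≠ j → w l ∈ s) → w j = θ j → eval w p = 0) :
    2 ^ m ≤ p.support.card := by
  classical
  apply two_pow_le_card_support p hp θ hθ
  intro j w hw
  let p' : MvPolynomial (Fin m) K := bind₁ (fun l => if l = j then C (θ j) else X l) p
  have hev : ∀ w : Fin m → K, eval w p' = eval (Function.update w j (θ j)) p := by
    intro w
    show eval₂Hom (RingHom.id K) w (bind₁ _ p) = _
    rw [eval₂Hom_bind₁]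
    show eval₂Hom _ _ p = eval₂Hom _ _ p
    congr 2
    funext l
    by_cases hl : l = j
    · subst hl; simp
    · simp [hl]
  have hp' : p' = 0 := by
    apply MvPolynomial.funext_set (fun _ => s) (fun _ => hs)
    intro x hx
    rw [hev, map_zero]
    apply h j
    · intro l hl
      rw [Function.update_of_ne hl]
      exact hx l trivial
    · simp
  have := hev w
  rw [hp', map_zero] at this
  rw [this]
  congr 2
  rw [← hw, Function.update_eq_self]

end Pool.Agent.Work.MP_09e03f_lc
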