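import Pool.Agent.Work.MP_09e03f_lc.Sparse

/-!
# Initial forms along curves
-/

namespace Pool.Agent.Work.MP_09e03f_lc

open MvPolynomial Filter Topology

variable {m : ℕ}

/-- Index type of the free variables: `inl j` is `w j`, `inr 0` is `u`, `inr 1` is `v`. -/
abbrev Yi (m : ℕ) : Type := Fin m ⊕ Fin 2

/-- the point with coordinates `w, u, v` -/
def pt {R : Type*} (w : Fin m → R) (u v : R) : Yi m → R := Sum.elim w ![u, v]

/-- the exponent vector of the variables `w` -/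
noncomputable def wexp (s : Yi m →₀ ℕ) : Fin m →₀ ℕ := Finsupp.equivFunOnFinite.symm (fun j => s (.inl j))

theorem wexp_apply (s : Yi m →₀ ℕ) (j : Fin m) : wexp s j = s (.inl j) := rfl

/-- reduced weight (without `v`) -/
def wt₀ (s : Yi m →₀ ℕ) : ℕ := s (.inr 0) + 2 * ∑ j, s (.inl j)

/-- weight -/
def wt (M : ℕ) (s : Yi m →₀ ℕ) : ℕ := wt₀ s + 2 * M * s (.inr 1)

theorem aeval_pt (Q : MvPolynomial (Yi m) ℝ) (w : Fin m → ℂ) (u v : ℂ) :
    aeval (pt w u v) Q = ∑ s ∈ Q.support, ((Q.coeff s : ℝ) : ℂ) *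
      ((∏ j, w j ^ s (.inl j)) * (u ^ s (.inr 0) * v ^ s (.inr 1))) := by
  rw [aeval_def, eval₂_eq']
  refine Finset.sum_congr rfl fun s _ => ?_
  congr 1
  rw [Fintype.prod_sum_type, Fin.prod_univ_two]
  rfl

/-- value along a weighted curve -/
theorem aeval_curve (Q : MvPolynomial (Yi m) ℝ) (M : ℕ) (w : Fin m → ℂ) (u σ : ℂ) :
    aeval (pt (fun j => σ ^ 2 * w j) (σ * u) (σ ^ (2 * M))) Q = ∑ s ∈ Q.support,
      σ ^ wt M s * (((Q.coeff s : ℝ) : ℂ) * ((∏ j, w j ^ s (.inl j)) * u ^ s (.inr 0))) := by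
  rw [aeval_pt]
  refine Finset.sum_congr rfl fun s _ => ?_
  have h1 : ∏ j, (σ ^ 2 * w j) ^ s (.inl j) =
      σ ^ (2 * ∑ j, s (.inl j)) * ∏ j, w j ^ s (.inl j) := by
    simp_rw [mul_pow]
    rw [Finset.prod_mul_distrib]
    congr 1
    rw [Finset.mul_sum, ← Finset.prod_pow_eq_pow_sum]
    refine Finset.prod_congr rfl fun j _ => ?_
    rw [← pow_mul]
  rw [h1, mul_pow, wt, wt₀, pow_add, pow_add, ← pow_mul]
  ring

/-- **Sparse bound.** -/
theorem sparse_bound (Q : MvPolynomial (Yi m) ℝ) (hQ : Q ≠ 0) (θ : Fin m → ℂ)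
    (hθ : ∀ j, θ j ≠ 0)
    (h : ∀ M : ℕ, 2 ≤ M → ∀ (j : Fin m) (η : Fin m → ℝ), ∃ (U : ℝ → ℂ) (Ω : ℝ → Fin m → ℂ) (U₀ : ℂ),
      U₀ ≠ 0 ∧ Tendsto U (𝓝[>] 0) (𝓝 U₀) ∧
      (∀ l, l ≠ j → Tendsto (fun σ => Ω σ l) (𝓝[>] 0) (𝓝 (U₀ ^ 2 * η l))) ∧
      Tendsto (fun σ => Ω σ j) (𝓝[>] 0) (𝓝 (U₀ ^ 2 * θ j)) ∧
      ∀ᶠ σ : ℝ in 𝓝[>] 0,
        aeval (pt (fun l => (σ : ℂ) ^ 2 * Ω σ l) ((σ : ℂ) * U σ) ((σ : ℂ) ^ (2 * M))) Q *
        aeval (pt (fun l => (σ : ℂ) ^ 2 * Ω σ l) ((σ : ℂ) * (-U σ)) ((σ : ℂ) ^ (2 * M))) Q = 0) :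
    2 ^ m ≤ Q.support.card := by
  classical
  -- choice of `M`
  obtain ⟨M, hM2, hM⟩ : ∃ M : ℕ, 2 ≤ M ∧ ∀ s ∈ Q.support, wt₀ s < M := by
    refine ⟨(∑ s ∈ Q.support, wt₀ s) + 2, by omega, fun s hs => ?_⟩
    have := Finset.single_le_sum (f := fun s : Yi m →₀ ℕ => wt₀ s) (fun _ _ => Nat.zero_le _) hs
    omega
  have hne : Q.support.Nonempty := Finset.nonempty_of_ne_empty (by simpa using hQ)
  obtain ⟨s₀, hs₀, hmin⟩ := Finset.exists_min_image Q.support (wt M) hne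
  set W := wt M s₀ with hW
  set T := Q.support.filter (fun s => wt M s = W) with hT
  have hTsub : T ⊆ Q.support := Finset.filter_subset _ _
  -- on `T` the exponent of `v` and the reduced weight are constant
  have hTv : ∀ s ∈ T, s (.inr 1) = s₀ (.inr 1) ∧ wt₀ s = wt₀ s₀ := by
    intro s hs
    obtain ⟨hs1, hs2⟩ := Finset.mem_filter.1 hs
    have h1 := hM s hs1
    have h2 := hM s₀ hs₀
    rw [hW, wt, wt] at hs2
    have h3 : s (.inr 1) = s₀ (.inr 1) := by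
      rcases lt_trichotomy (s (.inr 1)) (s₀ (.inr 1)) with hlt | heq | hgt
      · exfalso
        have : 2 * M * (s (.inr 1) + 1) ≤ 2 * M * s₀ (.inr 1) := Nat.mul_le_mul_left _ hlt
        rw [Nat.mul_add] at this
        omega
      · exact heq
      · exfalso
        have : 2 * M * (s₀ (.inr 1) + 1) ≤ 2 * M * s (.inr 1) := Nat.mul_le_mul_left _ hgt
        rw [Nat.mul_add] at this
        omega
    refine ⟨h3, ?_⟩
    rw [h3] at hs2
    omega
  have hinj : Set.InjOn (wexp : (Yi m →₀ ℕ) → _) T := by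
    intro s hs t ht hst
    have hs' := hTv s hs
    have ht' := hTv t ht
    have hw : ∀ j, s (.inl j) = t (.inl j) := fun j => by
      have := DFunLike.congr_fun hst j
      simpa [wexp_apply] using this
    ext i
    rcases i with j | i
    · exact hw j
    · fin_cases i
      · have h1 : wt₀ s = wt₀ t := by rw [hs'.2, ht'.2]
        rw [wt₀, wt₀, Finset.sum_congr rfl (fun j _ => hw j)] at h1
        simpa using h1
      · have := hs'.1.trans ht'.1.symm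
        simpa using this
  -- the initial form, with `u = v = 1`
  set p : MvPolynomial (Fin m) ℂ := ∑ s ∈ T, monomial (wexp s) ((Q.coeff s : ℝ) : ℂ) with hp
  have hcoeff : ∀ s ∈ T, p.coeff (wexp s) = ((Q.coeff s : ℝ) : ℂ) := by
    intro s hs
    rw [hp, coeff_sum, Finset.sum_eq_single s]
    · rw [coeff_monomial, if_pos rfl]
    · intro t ht hts
      rw [coeff_monomial, if_neg]
      intro h
      exact hts (hinj ht hs h)
    · intro h; exact absurd hs h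
  have hs₀T : s₀ ∈ T := Finset.mem_filter.2 ⟨hs₀, rfl⟩
  have hp0 : p ≠ 0 := by
    intro h0
    have h1 := hcoeff s₀ hs₀T
    rw [h0, coeff_zero] at h1
    have h2 : Q.coeff s₀ = 0 := by exact_mod_cast h1.symm
    exact (mem_support_iff.1 hs₀) h2
  have hsupp : p.support ⊆ T.image wexp := by
    intro e he
    by_contra hcon
    apply mem_support_iff.1 he
    rw [hp, coeff_sum]
    refine Finset.sum_eq_zero fun s hs => ?_
    rw [coeff_monomial, if_neg]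
    intro h
    exact hcon (Finset.mem_image.2 ⟨s, hs, h⟩)
  have hcard : p.support.card ≤ Q.support.card :=
    (Finset.card_le_card hsupp).trans (Finset.card_image_le.trans (Finset.card_le_card hTsub))
  refine le_trans ?_ hcard
  -- evaluation of the initial form
  have hform : ∀ (U : ℂ) (Ω w : Fin m → ℂ), (∀ j, Ω j = U ^ 2 * w j) →
      ∑ s ∈ T, ((Q.coeff s : ℝ) : ℂ) * ((∏ j, Ω j ^ s (.inl j)) * U ^ s (.inr 0)) =
        U ^ wt₀ s₀ * eval w p := by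
    intro U Ω w hΩ
    rw [hp, map_sum, Finset.mul_sum]
    refine Finset.sum_congr rfl fun s hs => ?_
    rw [eval_monomial, Finsupp.prod_fintype _ _ (fun i => pow_zero _)]
    simp_rw [wexp_apply, hΩ, mul_pow]
    rw [Finset.prod_mul_distrib, ← (hTv s hs).2, wt₀, pow_add]
    have h1 : ∏ j, (U ^ 2) ^ s (.inl j) = U ^ (2 * ∑ j, s (.inl j)) := by
      rw [Finset.mul_sum, ← Finset.prod_pow_eq_pow_sum]
      refine Finset.prod_congr rfl fun j _ => ?_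
      rw [← pow_mul]
    rw [h1]
    ring
  -- the limit
  have hlim : ∀ (U : ℝ → ℂ) (Ω : ℝ → Fin m → ℂ) (U₀ : ℂ) (Ω₀ : Fin m → ℂ),
      Tendsto U (𝓝[>] 0) (𝓝 U₀) → (∀ l, Tendsto (fun σ => Ω σ l) (𝓝[>] 0) (𝓝 (Ω₀ l))) →
      Tendsto (fun σ : ℝ => ((σ : ℂ) ^ W)⁻¹ *
        aeval (pt (fun l => (σ : ℂ) ^ 2 * Ω σ l) ((σ : ℂ) * U σ) ((σ : ℂ) ^ (2 * M))) Q) (𝓝[>] 0)
        (𝓝 (∑ s ∈ T, ((Q.coeff s : ℝ) : ℂ) * ((∏ j, Ω₀ j ^ s (.inl j)) * U₀ ^ s (.inr 0)))) := by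
    intro U Ω U₀ Ω₀ hU hΩ
    have h1 : ∀ s ∈ Q.support, Tendsto (fun σ : ℝ => (σ : ℂ) ^ (wt M s - W) *
        (((Q.coeff s : ℝ) : ℂ) * ((∏ j, Ω σ j ^ s (.inl j)) * U σ ^ s (.inr 0)))) (𝓝[>] 0)
        (𝓝 (if wt M s = W then
          ((Q.coeff s : ℝ) : ℂ) * ((∏ j, Ω₀ j ^ s (.inl j)) * U₀ ^ s (.inr 0)) else 0)) := by
      intro s hs
      have h2 : Tendsto (fun σ : ℝ =>
          (((Q.coeff s : ℝ) : ℂ) * ((∏ j, Ω σ j ^ s (.inl j)) * U σ ^ s (.inr 0)))) (𝓝[>] 0)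
          (𝓝 (((Q.coeff s : ℝ) : ℂ) * ((∏ j, Ω₀ j ^ s (.inl j)) * U₀ ^ s (.inr 0)))) := by
        refine Tendsto.const_mul _ (Tendsto.mul ?_ (hU.pow _))
        exact tendsto_finsetProd _ (fun j _ => (hΩ j).pow _)
      by_cases hW' : wt M s = W
      · rw [if_pos hW', hW', Nat.sub_self]
        simpa using h2
      · rw [if_neg hW']
        have hlt : W < wt M s := lt_of_le_of_ne (hmin s hs) (Ne.symm hW')
        have h3 : Tendsto (fun σ : ℝ => (σ : ℂ) ^ (wt M s - W)) (𝓝[>] 0) (𝓝 0) := by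
          have h4 : Tendsto (fun σ : ℝ => (σ : ℂ) ^ (wt M s - W)) (𝓝 0) (𝓝 ((0 : ℂ) ^ (wt M s - W))) :=
            (Complex.continuous_ofReal.tendsto' 0 0 (by simp)).pow _
          rw [zero_pow (by omega)] at h4
          exact h4.mono_left nhdsWithin_le_nhds
        simpa using h3.mul h2
    have h5 := tendsto_finsetSum Q.support h1
    rw [← Finset.sum_filter] at h5
    refine h5.congr' ?_
    filter_upwards [self_mem_nhdsWithin] with σ hσ
    have hσ0 : (σ : ℂ) ≠ 0 := by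
      have : (0 : ℝ) < σ := hσ
      exact_mod_cast this.ne'
    rw [aeval_curve, Finset.mul_sum]
    refine Finset.sum_congr rfl fun s hs => ?_
    have hle : W ≤ wt M s := hmin s hs
    rw [← mul_assoc ((σ : ℂ) ^ W)⁻¹]
    congr 1
    rw [pow_sub₀ _ hσ0 hle, mul_comm]
  -- conclusion
  have hinf : (Set.range ((↑) : ℝ → ℂ)).Infinite :=
    Set.infinite_range_of_injective Complex.ofReal_injective
  refine two_pow_le_card_support' p hp0 _ hinf θ hθ ?_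
  intro j w hw hwj
  choose! η hη using hw
  obtain ⟨U, Ω, U₀, hU₀, hU, hΩ, hΩj, hzero⟩ := h M hM2 j η
  have hΩ' : ∀ l, Tendsto (fun σ => Ω σ l) (𝓝[>] 0) (𝓝 (U₀ ^ 2 * w l)) := by
    intro l
    by_cases hl : l = j
    · rw [hl, hwj]; exact hΩj
    · rw [← hη l hl]; exact hΩ l hl
  have l1 := hlim U Ω U₀ (fun l => U₀ ^ 2 * w l) hU hΩ'
  have l2 := hlim (fun σ => - U σ) Ω (-U₀) (fun l => U₀ ^ 2 * w l) hU.neg hΩ'
  rw [hform U₀ _ w (fun j => rfl)] at l1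
  rw [hform (-U₀) _ w (fun j => by ring)] at l2
  have l3 := l1.mul l2
  have l4 : Tendsto (fun _ : ℝ => (0 : ℂ)) (𝓝[>] 0)
      (𝓝 (U₀ ^ wt₀ s₀ * eval w p * ((-U₀) ^ wt₀ s₀ * eval w p))) := by
    refine l3.congr' ?_
    filter_upwards [hzero] with σ hσ
    calc _ = (((σ : ℂ) ^ W)⁻¹ * ((σ : ℂ) ^ W)⁻¹) *
        (aeval (pt (fun l => (σ : ℂ) ^ 2 * Ω σ l) ((σ : ℂ) * U σ) ((σ : ℂ) ^ (2 * M))) Q *
        aeval (pt (fun l => (σ : ℂ) ^ 2 * Ω σ l) ((σ : ℂ) * (-U σ)) ((σ : ℂ) ^ (2 * M))) Q) := by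
          ring
      _ = 0 := by rw [hσ, mul_zero]
  have l5 := tendsto_nhds_unique l4 tendsto_const_nhds
  rcases mul_eq_zero.1 l5 with h1 | h1
  · rcases mul_eq_zero.1 h1 with h2 | h2
    · exact absurd h2 (pow_ne_zero _ hU₀)
    · exact h2
  · rcases mul_eq_zero.1 h1 with h2 | h2
    · exact absurd h2 (pow_ne_zero _ (neg_ne_zero.2 hU₀))
    · exact h2

end Pool.Agent.Work.MP_09e03f_lc
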